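import Pool.Agent.helper34.ZE.ZER
import Pool.Agent.helper86.NF.NSIG
import Pool.Agent.helper97.ED.FN
import Pool.Agent.helper63.ED.LC

/-!
# Zero density for `σ ≥ 37/50` with the exponent `12/(9σ - 1)` up to `7/9`
-/

set_option autoImplicit false

open Complex MeasureTheory

namespace Pool.Agent.ZE

open Pool.Agent.helper84.DM Pool.Agent.helper78.ED Pool.Agent.DH Pool.Agent.ZD Pool.Agent.NF

/-- The constant for `s ≥ 37/50`. -/
noncomputable def AE (s : ℝ) : ℝ := if s ≤ 7 / 9 then 12 / (9 * s - 1) else 2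

/-- The exponent for `s ≥ 37/50`. -/
noncomputable def wE (s : ℝ) : ℝ := AE s * (1 - s)

theorem wE_mid {s : ℝ} (h1 : s ≤ 7 / 9) : wE s = 12 * (1 - s) / (9 * s - 1) := by
  unfold wE AE
  rw [if_pos h1]
  ring

theorem wE_low {s : ℝ} (h1 : 37 / 50 ≤ s) (h2 : s ≤ 1) : 2 * (1 - s) ≤ wE s := by
  unfold wE AE
  split_ifs with h
  · refine mul_le_mul_of_nonneg_right ?_ (by linarith)
    rw [le_div_iff₀ (by linarith)]
    linarith
  · exact le_refl _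

theorem wE_nonneg {s : ℝ} (h1 : 37 / 50 ≤ s) (h2 : s ≤ 1) : 0 ≤ wE s :=
  le_trans (by linarith) (wE_low h1 h2)

theorem wE_slope {s : ℝ} (h1 : 3 / 4 ≤ s) (h2 : s ≤ 7 / 9) :
    wB (3 / 4) ≤ wE s + 3 * (s - 3 / 4) := by
  rw [wE_mid h2]
  unfold wB
  have hD : 0 < 9 * s - 1 := by linarith
  have e : 12 * (1 - s) / (9 * s - 1) + 3 * (s - 3 / 4) =
      (12 * (1 - s) + 3 * (s - 3 / 4) * (9 * s - 1)) / (9 * s - 1) := by
    rw [add_div, mul_div_cancel_right₀ _ hD.ne']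
  rw [e, le_div_iff₀ hD]
  norm_num
  nlinarith [mul_nonneg (sub_nonneg.2 h1) (sub_nonneg.2 h1)]

/-- Sets of zeros in dyadic strips. -/
def SIGB_stmt : Prop := ∀ ε : ℝ, 0 < ε → ∃ C T₀ : ℝ, 0 < C ∧ ∀ T : ℝ, T₀ ≤ T →
  ∀ σ : ℝ, 37 / 50 ≤ σ → σ ≤ 1 → ∀ Z : Finset ℂ, Zer σ T Z →
    (Z.card : ℝ) ≤ C * T ^ (wE σ + ε)

theorem SIGB_small (h1 : NCORB_stmt) (h2 : COR_stmt) (ε : ℝ) (hε : 0 < ε)
    (hε4 : ε ≤ 1 / 4) : ∃ C T₀ : ℝ, 0 < C ∧ ∀ T : ℝ, T₀ ≤ T →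
    ∀ σ : ℝ, 37 / 50 ≤ σ → σ ≤ 1 → ∀ Z : Finset ℂ, Zer σ T Z →
      (Z.card : ℝ) ≤ C * T ^ (wE σ + ε) := by
  obtain ⟨C₂, T₂, hC₂, hg₂⟩ := h1 ε hε
  obtain ⟨C₃, T₃, hC₃, hg₃⟩ := h1 (ε / 2) (by linarith)
  obtain ⟨C₄, T₄, hC₄, hg₄⟩ := h2 (3 / 4 + ε / 9) ε (by linarith) hε
  refine ⟨C₂ + C₃ + C₄, max 2 (max T₂ (max T₃ T₄)), by positivity, ?_⟩
  intro T hT σ hσ hσ1 Z hZ
  have hT2 : 2 ≤ T := le_trans (le_max_left _ _) hT
  have hT3 : max T₂ (max T₃ T₄) ≤ T := le_trans (le_max_right _ _) hT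
  have hTT₂ : T₂ ≤ T := le_trans (le_max_left _ _) hT3
  have hT4 : max T₃ T₄ ≤ T := le_trans (le_max_right _ _) hT3
  have hTT₃ : T₃ ≤ T := le_trans (le_max_left _ _) hT4
  have hTT₄ : T₄ ≤ T := le_trans (le_max_right _ _) hT4
  have hT1 : 1 ≤ T := by linarith
  have hT0 : 0 < T := by linarith
  rcases le_or_gt σ (3 / 4) with hs' | hs'
  · refine le_trans (hg₂ T hTT₂ σ hσ hs' Z hZ) ?_
    refine NSIG_up _ _ _ _ _ hC₂ (by linarith) hT1 ?_
    rw [wE_mid (by linarith)]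
    exact le_refl _
  · rcases le_or_gt σ (3 / 4 + ε / 9) with hs'' | hs''
    · have hZ' : Zer (3 / 4) T Z := fun ρ hρ =>
        ⟨(hZ ρ hρ).1, le_trans hs'.le (hZ ρ hρ).2.1, (hZ ρ hρ).2.2⟩
      have h7 := wE_slope hs'.le (by linarith)
      refine le_trans (hg₃ T hTT₃ (3 / 4) (by norm_num) le_rfl Z hZ') ?_
      exact NSIG_up _ _ _ _ _ hC₃ (by linarith) hT1 (by linarith)
    · have h8 := wE_low hσ hσ1
      refine le_trans (hg₄ T hTT₄ σ hs''.le hσ1 Z hZ) ?_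
      rw [mul_assoc, ← Real.rpow_add hT0]
      exact NSIG_up _ _ _ _ _ hC₄ (by linarith) hT1 (by linarith)

theorem SIGB (h1 : NCORB_stmt) (h2 : COR_stmt) : SIGB_stmt := by
  intro ε hε
  obtain ⟨C, T₀, hC, h⟩ := SIGB_small h1 h2 (min ε (1 / 4)) (lt_min hε (by norm_num))
    (min_le_right _ _)
  refine ⟨C, max 1 T₀, hC, ?_⟩
  intro T hT σ hσ hσ1 Z hZ
  refine le_trans (h T (le_trans (le_max_right _ _) hT) σ hσ hσ1 Z hZ) ?_
  exact NSIG_up _ _ _ _ _ hC le_rfl (le_trans (le_max_left _ _) hT)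
    (by linarith [min_le_left ε (1 / 4)])

/-- Zeros with multiplicity, `σ ≥ 37/50`. -/
def FTB_stmt : Prop := ∀ ε : ℝ, 0 < ε → ∃ C : ℝ, 0 < C ∧ ∀ T σ : ℝ, 1 ≤ T →
  37 / 50 ≤ σ → σ ≤ 1 → ∀ Z : Finset ℂ,
  (∀ ρ ∈ Z, riemannZeta ρ = 0 ∧ σ ≤ ρ.re ∧ 0 < ρ.im ∧ ρ.im ≤ T) →
    ∑ ρ ∈ Z, (mult ρ : ℝ) ≤ C * T ^ (wE σ + ε)

theorem FTB_high (hcor : SIGB_stmt) (ε : ℝ) (hε : 0 < ε) :
    ∃ C T₀ : ℝ, 0 < C ∧ 2 ≤ T₀ ∧ ∀ T σ : ℝ, 2 ≤ T →
      37 / 50 ≤ σ → σ ≤ 1 → ∀ Z : Finset ℂ,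
      (∀ ρ ∈ Z, riemannZeta ρ = 0 ∧ σ ≤ ρ.re ∧ 2 * T₀ < ρ.im ∧ ρ.im ≤ T) →
        (Z.card : ℝ) ≤ C * Real.log T * (T ^ (ε / 4) * T ^ (wE σ)) := by
  classical
  obtain ⟨C, T₁, hC, h1⟩ := hcor (ε / 4) (by positivity)
  set T₀ : ℝ := max T₁ 2 with hT₀
  have hT0 : 2 ≤ T₀ := le_max_right _ _
  have hT01 : T₁ ≤ T₀ := le_max_left _ _
  refine ⟨C * (2 / Real.log 2), T₀, by positivity, hT0, ?_⟩
  intro T σ hT hs1 hs2 Z hZ
  have hTpos : 0 < T := by linarith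
  have hl2 : 0 < Real.log 2 := Real.log_pos (by norm_num)
  have hlT : Real.log 2 ≤ Real.log T := Real.log_le_log (by norm_num) hT
  set J : ℕ := ⌊Real.log T / Real.log 2⌋₊ with hJ
  set g : ℂ → ℕ := fun ρ => ⌊Real.log (T / ρ.im) / Real.log 2⌋₊ with hg
  set B : ℝ := C * T ^ (ε / 4) * T ^ (wE σ) with hB
  have hmaps : ∀ ρ ∈ Z, g ρ ∈ Finset.range (J + 1) := by
    intro ρ hρ
    obtain ⟨_, _, a, b⟩ := hZ ρ hρ
    rw [Finset.mem_range, Nat.lt_succ_iff]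
    apply Nat.floor_le_floor
    apply div_le_div_of_nonneg_right _ hl2.le
    apply Real.log_le_log (by apply div_pos hTpos; linarith)
    rw [div_le_iff₀ (by linarith)]
    nlinarith
  have hfib : ∀ j ∈ Finset.range (J + 1), ((Z.filter (fun ρ => g ρ = j)).card : ℝ) ≤ B := by
    intro j _
    set W := Z.filter (fun ρ => g ρ = j) with hW
    rcases Finset.eq_empty_or_nonempty W with he | hne
    · rw [he]
      simp only [Finset.card_empty, Nat.cast_zero, hB]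
      positivity
    have key : ∀ ρ ∈ W, (2 : ℝ) ^ j * ρ.im ≤ T ∧ T < 2 ^ (j + 1) * ρ.im := by
      intro ρ hρ
      rw [hW, Finset.mem_filter] at hρ
      obtain ⟨hρZ, hj⟩ := hρ
      obtain ⟨_, _, a, b⟩ := hZ ρ hρZ
      have him : 0 < ρ.im := by linarith
      have hq : 0 < T / ρ.im := div_pos hTpos him
      have hq1 : 1 ≤ T / ρ.im := by rw [one_le_div him]; exact b
      have hx0 : 0 ≤ Real.log (T / ρ.im) / Real.log 2 :=
        div_nonneg (Real.log_nonneg hq1) hl2.le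
      have f1 : (j : ℝ) ≤ Real.log (T / ρ.im) / Real.log 2 := by
        rw [← hj]
        exact Nat.floor_le hx0
      have f2 : Real.log (T / ρ.im) / Real.log 2 < (j : ℝ) + 1 := by
        rw [← hj]
        exact Nat.lt_floor_add_one _
      rw [le_div_iff₀ hl2] at f1
      rw [div_lt_iff₀ hl2] at f2
      constructor
      · have : Real.log ((2 : ℝ) ^ j) ≤ Real.log (T / ρ.im) := by
          rw [Real.log_pow]; exact f1
        rw [Real.log_le_log_iff (by positivity) hq, le_div_iff₀ him] at this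
        exact this
      · have : Real.log (T / ρ.im) < Real.log ((2 : ℝ) ^ (j + 1)) := by
          rw [Real.log_pow]; push_cast; exact f2
        rw [Real.log_lt_log_iff hq (by positivity), div_lt_iff₀ him] at this
        exact this
    set S : ℝ := T / 2 ^ (j + 1) with hS
    have h2j : (0 : ℝ) < 2 ^ (j + 1) := by positivity
    have hST : S ≤ T := by
      rw [hS, div_le_iff₀ h2j]
      have : (1 : ℝ) ≤ 2 ^ (j + 1) := one_le_pow₀ (by norm_num)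
      nlinarith
    have hZer : Zer σ S W := by
      intro ρ hρ
      have h3 := key ρ hρ
      have hρZ : ρ ∈ Z := (Finset.mem_filter.mp hρ).1
      obtain ⟨a1, a2, a3, a4⟩ := hZ ρ hρZ
      refine ⟨a1, a2, ?_, ?_⟩
      · rw [hS, div_le_iff₀ h2j]
        nlinarith [h3.2]
      · rw [hS]
        have h5 : 2 * (T / 2 ^ (j + 1)) = T / 2 ^ j := by
          rw [pow_succ]
          field_simp
        rw [h5, le_div_iff₀ (by positivity)]
        nlinarith [h3.1]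
    have hST0 : T₀ ≤ S := by
      obtain ⟨ρ, hρ⟩ := hne
      have h3 := hZer ρ hρ
      have hρZ : ρ ∈ Z := (Finset.mem_filter.mp hρ).1
      have h4 := (hZ ρ hρZ).2.2.1
      have h5 := h3.2.2.2
      linarith
    have h6 := h1 S (hT01.trans hST0) σ hs1 hs2 W hZer
    have hSpos : 0 < S := by linarith
    have h6' : (W.card : ℝ) ≤ C * S ^ (ε / 4) * S ^ (wE σ) := by
      refine le_trans h6 (le_of_eq ?_)
      rw [Real.rpow_add hSpos]
      ring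
    refine le_trans h6' ?_
    rw [hB]
    have k1 : S ^ (ε / 4) ≤ T ^ (ε / 4) := Real.rpow_le_rpow hSpos.le hST (by positivity)
    have k2 : S ^ (wE σ) ≤ T ^ (wE σ) :=
      Real.rpow_le_rpow hSpos.le hST (wE_nonneg hs1 hs2)
    apply mul_le_mul (mul_le_mul_of_nonneg_left k1 hC.le) k2
    · positivity
    · positivity
  have hsum : Z.card = ∑ j ∈ Finset.range (J + 1), (Z.filter (fun ρ => g ρ = j)).card :=
    Finset.card_eq_sum_card_fiberwise hmaps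
  have hJle : ((J : ℝ) + 1) ≤ 2 / Real.log 2 * Real.log T := by
    have : (J : ℝ) ≤ Real.log T / Real.log 2 :=
      Nat.floor_le (div_nonneg (by linarith) hl2.le)
    have h7 : 1 ≤ Real.log T / Real.log 2 := by
      rw [one_le_div hl2]; exact hlT
    have h8 : 2 / Real.log 2 * Real.log T = 2 * (Real.log T / Real.log 2) := by ring
    rw [h8]
    linarith
  have hB0 : 0 ≤ B := by rw [hB]; positivity
  calc (Z.card : ℝ) = ∑ j ∈ Finset.range (J + 1), ((Z.filter (fun ρ => g ρ = j)).card : ℝ) := by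
        rw [hsum]; push_cast; rfl
    _ ≤ ∑ j ∈ Finset.range (J + 1), B := Finset.sum_le_sum hfib
    _ = ((J : ℝ) + 1) * B := by
        rw [Finset.sum_const, Finset.card_range, nsmul_eq_mul]; push_cast; ring
    _ ≤ (2 / Real.log 2 * Real.log T) * B := mul_le_mul_of_nonneg_right hJle hB0
    _ = C * (2 / Real.log 2) * Real.log T * (T ^ (ε / 4) * T ^ (wE σ)) := by rw [hB]; ring

theorem FTB (h : SIGB_stmt) : FTB_stmt := by
  intro ε hε
  classical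
  obtain ⟨C₁, T₀, hC₁, hT₀, h1⟩ := FTB_high h ε hε
  obtain ⟨C₂, hC₂, h2⟩ := FN_low (2 * T₀)
  obtain ⟨C₃, hC₃, h3⟩ := mult_le
  -- the constant
  set L : ℝ := 4 / ε with hL
  have hLpos : 0 < L := by positivity
  refine ⟨C₂ + C₃ * C₁ * L ^ 2, by positivity, ?_⟩
  intro T σ hT hs1 hs2 Z hZ
  have hTpos : 0 < T := by linarith
  set R : ℝ := T ^ (wE σ) with hR
  have hTs : 1 ≤ R := Real.one_le_rpow hT (wE_nonneg hs1 hs2)
  have hTe : 1 ≤ T ^ ε := Real.one_le_rpow hT hε.le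
  have hlogT : Real.log T ≤ L * T ^ (ε / 4) := by
    have := Real.log_le_rpow_div hTpos.le (show 0 < ε / 4 by positivity)
    rw [hL]
    calc Real.log T ≤ T ^ (ε / 4) / (ε / 4) := this
      _ = 4 / ε * T ^ (ε / 4) := by field_simp
  have hlog0 : 0 ≤ Real.log T := Real.log_nonneg hT
  have hte1 : 1 ≤ T ^ (ε / 4) := Real.one_le_rpow hT (by positivity)
  have hte4 : T ^ ε = (T ^ (ε / 4)) ^ 4 := by
    rw [← Real.rpow_natCast, ← Real.rpow_mul hTpos.le]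
    congr 1
    push_cast
    ring
  have hRe : T ^ (wE σ + ε) = T ^ ε * R := by
    rw [hR, ← Real.rpow_add hTpos]; congr 1; ring
  -- low zeros
  set Zl := Z.filter (fun ρ => ρ.im ≤ 2 * T₀) with hZl
  set Zh := Z.filter (fun ρ => ¬ ρ.im ≤ 2 * T₀) with hZh
  have hsplit : ∑ ρ ∈ Z, (mult ρ : ℝ) = ∑ ρ ∈ Zl, (mult ρ : ℝ) + ∑ ρ ∈ Zh, (mult ρ : ℝ) :=
    (Finset.sum_filter_add_sum_filter_not Z _ _).symm
  have hlow : ∑ ρ ∈ Zl, (mult ρ : ℝ) ≤ C₂ := by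
    apply h2
    intro ρ hρ
    rw [hZl, Finset.mem_filter] at hρ
    obtain ⟨a, b, c, e⟩ := hZ ρ hρ.1
    exact ⟨a, by linarith, c, hρ.2⟩
  have hlow2 : C₂ ≤ C₂ * (T ^ ε * R) := by
    have : 1 ≤ T ^ ε * R := by nlinarith
    nlinarith
  have hhigh : ∑ ρ ∈ Zh, (mult ρ : ℝ) ≤ (C₃ * C₁ * L ^ 2) * (T ^ ε * R) := by
    rcases Finset.eq_empty_or_nonempty Zh with he | hne
    · rw [he, Finset.sum_empty]
      positivity
    have hT2 : 2 ≤ T := by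
      obtain ⟨ρ, hρ⟩ := hne
      rw [hZh, Finset.mem_filter] at hρ
      have := (hZ ρ hρ.1).2.2.2
      have h4 := hρ.2
      push Not at h4
      linarith
    have hsm : ∑ ρ ∈ Zh, (mult ρ : ℝ) ≤ (Zh.card : ℝ) * (C₃ * Real.log T) := by
      rw [← nsmul_eq_mul]
      apply Finset.sum_le_card_nsmul
      intro ρ hρ
      rw [hZh, Finset.mem_filter] at hρ
      obtain ⟨a, b, c, e⟩ := hZ ρ hρ.1
      exact h3 T hT2 ρ a c e
    have hcard := h1 T σ hT2 hs1 hs2 Zh (by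
      intro ρ hρ
      rw [hZh, Finset.mem_filter] at hρ
      obtain ⟨a, b, c, e⟩ := hZ ρ hρ.1
      have h4 := hρ.2
      push Not at h4
      exact ⟨a, b, h4, e⟩)
    have hcard2 : (Zh.card : ℝ) ≤ C₁ * (L * T ^ (ε / 4)) * (T ^ (ε / 4) * R) := by
      refine le_trans hcard ?_
      apply mul_le_mul_of_nonneg_right _ (by positivity)
      exact mul_le_mul_of_nonneg_left hlogT hC₁.le
    calc ∑ ρ ∈ Zh, (mult ρ : ℝ) ≤ (Zh.card : ℝ) * (C₃ * Real.log T) := hsm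
      _ ≤ (C₁ * (L * T ^ (ε / 4)) * (T ^ (ε / 4) * R)) * (C₃ * (L * T ^ (ε / 4))) := by
          apply mul_le_mul hcard2 (mul_le_mul_of_nonneg_left hlogT hC₃.le) (by positivity)
            (by positivity)
      _ = C₃ * C₁ * L ^ 2 * ((T ^ (ε / 4)) ^ 3 * R) := by ring
      _ ≤ C₃ * C₁ * L ^ 2 * ((T ^ (ε / 4)) ^ 4 * R) := by
          apply mul_le_mul_of_nonneg_left _ (by positivity)
          apply mul_le_mul_of_nonneg_right _ (by linarith)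
          exact pow_le_pow_right₀ hte1 (by norm_num)
      _ = C₃ * C₁ * L ^ 2 * (T ^ ε * R) := by rw [hte4]
  rw [hsplit, hRe]
  calc ∑ ρ ∈ Zl, (mult ρ : ℝ) + ∑ ρ ∈ Zh, (mult ρ : ℝ)
      ≤ C₂ * (T ^ ε * R) + (C₃ * C₁ * L ^ 2) * (T ^ ε * R) := add_le_add (hlow.trans hlow2) hhigh
    _ = _ := by ring

end Pool.Agent.ZE
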