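import Pool.Agent.helper86.NF.AsmC
import Pool.Agent.helper34.ZE.FTB

/-!
# Zero density with the exponent `12/(9σ - 1)` near `3/4`: assembly
-/

set_option autoImplicit false

open Complex MeasureTheory

namespace Pool.Agent.ZE

open Pool.Agent.helper84.DM Pool.Agent.helper78.ED Pool.Agent.DH Pool.Agent.ZD Pool.Agent.NF

/-- The zero density theorem for `σ ≥ 37/50`, from the large values theorem of project lw. -/
theorem ftb_of (lwf : LWF_stmt) : FTB_stmt := by
  have nvm : NVM_stmt := NVM z_mvk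
  have nvw : NVW_stmt := NVW (LWK lwf)
  have ba2 : BA2_stmt := BA2 z_bhs z_bq2 z_bmu z_r3m z_cubm
  have lvb : LVB_stmt := LVB ba2 z_bqf z_bs0
  have czh : CZHB_stmt := CZHB nvm NMV
  have czb : CZB_stmt := CZB NPW nvm NMV nvw lvb
  have nall : NALLB_stmt := NALLB (NONEB czh czb) z_csep
  have ncor : NCORB_stmt := NCORB (NTAYB nall Pool.Agent.DH.TAY) Pool.Agent.DH.det
    Pool.Agent.DH.two
  exact FTB (SIGB ncor Pool.Agent.DH.cor)

end Pool.Agent.ZE
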