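import Pool.Agent.helper67.ZD.BA

/-!
# The alternative (A) with `R²` in place of `S`, for `N L² ≥ T^(1+δ)`
-/

set_option autoImplicit false

open Complex MeasureTheory

namespace Pool.Agent.ZE

open Pool.Agent.helper84.DM Pool.Agent.helper78.ED Pool.Agent.DH Pool.Agent.ZD

theorem BAR2 (V Q K X L R Z Z1 Z2 : ℝ) (hV : 0 ≤ V) (hK : 0 ≤ K) (hX : 0 ≤ X) (hL : 0 < L)
    (hR : 0 ≤ R) (hZ : 0 ≤ Z) (hZ1 : 0 ≤ Z1) (hZ2 : 0 ≤ Z2) (hZZ : Z ≤ Z1 + Z2 * Q)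
    (hQ : L * R ^ 2 ≤ Q)
    (h : V ^ 2 * Q ≤ K * (X * L * R + Z ^ (1 / 3 : ℝ) * (L * R) ^ (1 / 3 : ℝ) *
      Q ^ (1 / 3 : ℝ))) :
    V ^ 2 * R ≤ 2 * K * X ∨
      V ^ 6 * (L * R ^ 3) ≤ 16 * K ^ 3 * (Z1 + Z2 * (L * R ^ 2)) := by
  rcases hR.eq_or_lt with h0 | h0
  · left
    rw [← h0]
    nlinarith [mul_nonneg hK hX]
  · have hQ0 : 0 < Q := lt_of_lt_of_le (by positivity) hQ
    by_cases hc : Z ^ (1 / 3 : ℝ) * (L * R) ^ (1 / 3 : ℝ) * Q ^ (1 / 3 : ℝ) ≤ X * L * R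
    · left
      have h1 : V ^ 2 * (L * R ^ 2) ≤ V ^ 2 * Q :=
        mul_le_mul_of_nonneg_left hQ (by positivity)
      have h2 : K * (X * L * R + Z ^ (1 / 3 : ℝ) * (L * R) ^ (1 / 3 : ℝ) * Q ^ (1 / 3 : ℝ)) ≤
          K * (X * L * R + X * L * R) :=
        mul_le_mul_of_nonneg_left (by linarith) hK
      have h3 : (V ^ 2 * R) * (L * R) ≤ (2 * K * X) * (L * R) := by
        calc (V ^ 2 * R) * (L * R) = V ^ 2 * (L * R ^ 2) := by ring
          _ ≤ K * (X * L * R + X * L * R) := le_trans h1 (le_trans h h2)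
          _ = (2 * K * X) * (L * R) := by ring
      exact le_of_mul_le_mul_right h3 (by positivity)
    · right
      push Not at hc
      have h2 : V ^ 2 * Q ≤
          2 * K * (Z ^ (1 / 3 : ℝ) * (L * R) ^ (1 / 3 : ℝ) * Q ^ (1 / 3 : ℝ)) := by
        refine le_trans h ?_
        have : K * (X * L * R + Z ^ (1 / 3 : ℝ) * (L * R) ^ (1 / 3 : ℝ) * Q ^ (1 / 3 : ℝ)) ≤
            K * (2 * (Z ^ (1 / 3 : ℝ) * (L * R) ^ (1 / 3 : ℝ) * Q ^ (1 / 3 : ℝ))) :=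
          mul_le_mul_of_nonneg_left (by linarith) hK
        linarith
      have hcube : ∀ x : ℝ, 0 ≤ x → (x ^ (1 / 3 : ℝ)) ^ 3 = x := by
        intro x hx
        rw [← Real.rpow_natCast, ← Real.rpow_mul hx]
        norm_num
      have h3 : (V ^ 2 * Q) ^ 3 ≤
          (2 * K * (Z ^ (1 / 3 : ℝ) * (L * R) ^ (1 / 3 : ℝ) * Q ^ (1 / 3 : ℝ))) ^ 3 :=
        pow_le_pow_left₀ (by positivity) h2 3
      have h4 : (2 * K * (Z ^ (1 / 3 : ℝ) * (L * R) ^ (1 / 3 : ℝ) * Q ^ (1 / 3 : ℝ))) ^ 3 =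
          8 * K ^ 3 * Z * (L * R) * Q := by
        have : (2 * K * (Z ^ (1 / 3 : ℝ) * (L * R) ^ (1 / 3 : ℝ) * Q ^ (1 / 3 : ℝ))) ^ 3 =
          8 * K ^ 3 * (Z ^ (1 / 3 : ℝ)) ^ 3 * ((L * R) ^ (1 / 3 : ℝ)) ^ 3 *
            (Q ^ (1 / 3 : ℝ)) ^ 3 := by ring
        rw [this, hcube Z hZ, hcube (L * R) (by positivity), hcube Q hQ0.le]
      rw [h4] at h3
      have h5 : (V ^ 6 * Q ^ 2) * Q ≤ (8 * K ^ 3 * Z * (L * R)) * Q := by
        calc (V ^ 6 * Q ^ 2) * Q = (V ^ 2 * Q) ^ 3 := by ring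
          _ ≤ _ := h3
      have h6 : V ^ 6 * Q ^ 2 ≤ 8 * K ^ 3 * Z * (L * R) := le_of_mul_le_mul_right h5 hQ0
      have h6' : V ^ 6 * Q ^ 2 ≤ 8 * K ^ 3 * (Z1 + Z2 * Q) * (L * R) := by
        refine h6.trans ?_
        refine mul_le_mul_of_nonneg_right ?_ (by positivity)
        exact mul_le_mul_of_nonneg_left hZZ (by positivity)
      rcases le_total (Z2 * Q) Z1 with hz | hz
      · have h7 : (L * R ^ 2) ^ 2 ≤ Q ^ 2 := pow_le_pow_left₀ (by positivity) hQ 2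
        have h8 : V ^ 6 * (L * R ^ 2) ^ 2 ≤ V ^ 6 * Q ^ 2 :=
          mul_le_mul_of_nonneg_left h7 (by positivity)
        have h8' : 8 * K ^ 3 * (Z1 + Z2 * Q) * (L * R) ≤ 16 * K ^ 3 * Z1 * (L * R) := by
          have : 8 * K ^ 3 * (Z1 + Z2 * Q) ≤ 16 * K ^ 3 * Z1 := by
            have h10 : 8 * K ^ 3 * (Z2 * Q) ≤ 8 * K ^ 3 * Z1 :=
              mul_le_mul_of_nonneg_left hz (by positivity)
            linarith
          exact mul_le_mul_of_nonneg_right this (by positivity)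
        have h9 : (V ^ 6 * (L * R ^ 3)) * (L * R) ≤ (16 * K ^ 3 * Z1) * (L * R) := by
          calc (V ^ 6 * (L * R ^ 3)) * (L * R) = V ^ 6 * (L * R ^ 2) ^ 2 := by ring
            _ ≤ 16 * K ^ 3 * Z1 * (L * R) := le_trans h8 (le_trans h6' h8')
        have h10 := le_of_mul_le_mul_right h9 (by positivity)
        refine h10.trans (mul_le_mul_of_nonneg_left ?_ (by positivity))
        have : 0 ≤ Z2 * (L * R ^ 2) := by positivity
        linarith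
      · have h8' : 8 * K ^ 3 * (Z1 + Z2 * Q) * (L * R) ≤ (16 * K ^ 3 * Z2 * (L * R)) * Q := by
          have : 8 * K ^ 3 * (Z1 + Z2 * Q) ≤ 16 * K ^ 3 * (Z2 * Q) := by
            have h10 : 8 * K ^ 3 * Z1 ≤ 8 * K ^ 3 * (Z2 * Q) :=
              mul_le_mul_of_nonneg_left hz (by positivity)
            linarith
          calc 8 * K ^ 3 * (Z1 + Z2 * Q) * (L * R) ≤ 16 * K ^ 3 * (Z2 * Q) * (L * R) :=
                mul_le_mul_of_nonneg_right this (by positivity)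
            _ = (16 * K ^ 3 * Z2 * (L * R)) * Q := by ring
        have h9 : (V ^ 6 * Q) * Q ≤ (16 * K ^ 3 * Z2 * (L * R)) * Q := by
          calc (V ^ 6 * Q) * Q = V ^ 6 * Q ^ 2 := by ring
            _ ≤ _ := h6'.trans h8'
        have h10 : V ^ 6 * Q ≤ 16 * K ^ 3 * Z2 * (L * R) := le_of_mul_le_mul_right h9 hQ0
        have h11 : V ^ 6 * (L * R ^ 2) ≤ V ^ 6 * Q := mul_le_mul_of_nonneg_left hQ (by positivity)
        calc V ^ 6 * (L * R ^ 3) = (V ^ 6 * (L * R ^ 2)) * R := by ring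
          _ ≤ (16 * K ^ 3 * Z2 * (L * R)) * R :=
              mul_le_mul_of_nonneg_right (h11.trans h10) h0.le
          _ = 16 * K ^ 3 * (Z2 * (L * R ^ 2)) := by ring
          _ ≤ 16 * K ^ 3 * (Z1 + Z2 * (L * R ^ 2)) :=
              mul_le_mul_of_nonneg_left (by linarith) (by positivity)

/-- The alternative (A) with `R²` in place of `S`. -/
def BA2_stmt : Prop := ∀ ε δ : ℝ, 0 < ε → 0 < δ → δ ≤ 1 / 10 → ∃ C T₀ : ℝ, 0 < C ∧
  ∀ T : ℝ, T₀ ≤ T → ∀ W : Finset ℝ, Sep δ T W → ∀ N L : ℕ, 1 ≤ L →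
  T ^ (1 / 2 : ℝ) ≤ (N : ℝ) → (N : ℝ) * L ≤ T → T ^ (1 + δ) ≤ (N : ℝ) * L * L →
  ∀ (b : ℕ → ℂ) (A V : ℝ), 0 ≤ A → 0 < V →
  (∀ n ∈ Finset.Ioc N (4 * N), ‖b n‖ ≤ A) →
  (∀ t ∈ W, V ≤ ‖DG (Finset.Ioc N (4 * N)) b t‖) →
  V ^ 2 * (W.card : ℝ) ≤ C * A ^ 2 * T ^ ε * ((N : ℝ) ^ 2 * L) ∨
  V ^ 6 * (L * (W.card : ℝ) ^ 3) ≤ C * A ^ 6 * T ^ (ε + 2 * δ) * ((N : ℝ) ^ 3 *
    (T ^ 2 * (W.card : ℝ) ^ (3 / 2 : ℝ) + N * L * T * q3 W +
      (N : ℝ) ^ 2 * (L : ℝ) ^ 2 * (W.card : ℝ) ^ 2))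

theorem BA2 (h1 : BHS_stmt) (h3 : BQ2_stmt) (h4 : BMU_stmt) (h6 : R3_stmt) (h7 : CUB_stmt) :
    BA2_stmt := by
  intro ε δ hε hδ hδ1
  obtain ⟨Cd, hCd, Hd⟩ := divisor_bound (ε / 6) (by linarith)
  obtain ⟨Cs, Ts, hCs, Hs⟩ := h6 (ε / 2) δ (by linarith) hδ hδ1
  obtain ⟨Cc, Tc, hCc, Hc⟩ := h7 (ε / 2) δ (by linarith) hδ hδ1
  set D₁ : ℝ := Cd * (32 : ℝ) ^ (ε / 6) with hD₁
  have hD₁0 : 0 < D₁ := by positivity
  set C₁ : ℝ := 5376 * D₁ with hC₁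
  set C₂ : ℝ := 16 * (2688 * D₁) ^ 3 * (28 * (Cc + 192 * Cs)) with hC₂
  have hC₁0 : 0 < C₁ := by positivity
  have hC₂0 : 0 < C₂ := by positivity
  refine ⟨C₁ + C₂, max 2 (max Ts Tc), by positivity, ?_⟩
  intro T hT W hW N L hL hN hNL hNLL b A V hA hV hb hD
  have hT2 : 2 ≤ T := le_trans (le_max_left _ _) hT
  have hTs : Ts ≤ T := le_trans (le_trans (le_max_left _ _) (le_max_right _ _)) hT
  have hTc : Tc ≤ T := le_trans (le_trans (le_max_right _ _) (le_max_right _ _)) hT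
  have hT0 : 0 < T := by linarith
  have hT1 : 1 ≤ T := by linarith
  have hL1 : (1 : ℝ) ≤ (L : ℝ) := by exact_mod_cast hL
  have hN1 : (1 : ℝ) ≤ (N : ℝ) :=
    le_trans (Real.one_le_rpow hT1 (by positivity)) hN
  have hN1' : 1 ≤ N := by exact_mod_cast hN1
  set X : ℝ := (N : ℝ) * L with hX
  have hNX : (N : ℝ) ≤ X := le_mul_of_one_le_right (by positivity) hL1
  have hX12 : T ^ (1 / 2 : ℝ) ≤ X := hN.trans hNX
  have hX0 : 0 < X := by linarith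
  have hX1 : 1 ≤ X := by linarith
  have hTd : T ≤ T ^ (1 + δ) := by
    calc T = T ^ (1 : ℝ) := (Real.rpow_one T).symm
      _ ≤ T ^ (1 + δ) := Real.rpow_le_rpow_of_exponent_le hT1 (by linarith)
  set R : ℝ := (W.card : ℝ) with hR
  have hR0 : 0 ≤ R := Nat.cast_nonneg _
  set q : ℝ := q3 W with hq
  have hq0 : 0 ≤ q := BA_q3_nonneg W
  set Q : ℝ := QW W L with hQ
  have hQ0 : 0 ≤ Q := BA_QW_nonneg W L
  -- the divisor bound
  set D : ℝ := D₁ * T ^ (ε / 6) with hDdef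
  have hD0 : 0 < D := by positivity
  have hdiv : ∀ k : ℕ, 1 ≤ k → k ≤ 32 * (N * L) → d k ≤ D := by
    intro k hk1 hk2
    have e1 : (k : ℝ) ≤ 32 * T := by
      have : (k : ℝ) ≤ 32 * ((N : ℝ) * L) := by exact_mod_cast hk2
      linarith
    calc d k ≤ Cd * (k : ℝ) ^ (ε / 6) := Hd k hk1
      _ ≤ Cd * (32 * T) ^ (ε / 6) :=
          mul_le_mul_of_nonneg_left
            (Real.rpow_le_rpow (Nat.cast_nonneg _) e1 (by positivity)) hCd.le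
      _ = D := by
          rw [Real.mul_rpow (by norm_num) hT0.le, hDdef, hD₁]
          ring
  have hB := h1 W N L b A V D hN1' hL hV.le hdiv hb hD
  obtain ⟨hmu0, hmu⟩ := h4 X hX1
  have hSD0 := BA_SD_nonneg X W
  set Z : ℝ := 28 * (‖CS X W‖ + 192 * X * SD X W) with hZ
  have hZ0 : 0 ≤ Z := by positivity
  set K : ℝ := 2688 * N * A ^ 2 * D with hK
  have hK0 : 0 ≤ K := by positivity
  -- the main inequality
  have hmain : V ^ 2 * Q ≤ K * (X * L * R + Z ^ (1 / 3 : ℝ) * (L * R) ^ (1 / 3 : ℝ) *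
      Q ^ (1 / 3 : ℝ)) := by
    have e1 : 14 * mu X * L * R ≤ 896 * (X * L * R) := by
      have : mu X * (L * R) ≤ 64 * X * (L * R) :=
        mul_le_mul_of_nonneg_right hmu (by positivity)
      nlinarith
    have e2 : (4 * (‖CS X W‖ + 3 * mu X * SD X W)) ^ (1 / 3 : ℝ) *
        (7 * L * R) ^ (1 / 3 : ℝ) ≤ Z ^ (1 / 3 : ℝ) * (L * R) ^ (1 / 3 : ℝ) := by
      rw [← Real.mul_rpow (by positivity) (by positivity),
        ← Real.mul_rpow hZ0 (by positivity)]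
      refine Real.rpow_le_rpow (by positivity) ?_ (by norm_num)
      have e3 : mu X * SD X W ≤ 64 * X * SD X W := mul_le_mul_of_nonneg_right hmu hSD0
      have e4 : 4 * (‖CS X W‖ + 3 * mu X * SD X W) * (7 * L * R) =
          28 * (‖CS X W‖ + 3 * (mu X * SD X W)) * (L * R) := by ring
      rw [e4, hZ]
      refine mul_le_mul_of_nonneg_right ?_ (by positivity)
      nlinarith
    have e5 : 0 ≤ Z ^ (1 / 3 : ℝ) * (L * R) ^ (1 / 3 : ℝ) * Q ^ (1 / 3 : ℝ) := by positivity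
    have e6 : (4 * (‖CS X W‖ + 3 * mu X * SD X W)) ^ (1 / 3 : ℝ) *
        (7 * L * R) ^ (1 / 3 : ℝ) * Q ^ (1 / 3 : ℝ) ≤
        Z ^ (1 / 3 : ℝ) * (L * R) ^ (1 / 3 : ℝ) * Q ^ (1 / 3 : ℝ) :=
      mul_le_mul_of_nonneg_right e2 (by positivity)
    calc V ^ 2 * Q ≤ 3 * N * A ^ 2 * D * (14 * mu X * L * R +
          (4 * (‖CS X W‖ + 3 * mu X * SD X W)) ^ (1 / 3 : ℝ) *
            (7 * L * R) ^ (1 / 3 : ℝ) * Q ^ (1 / 3 : ℝ)) := hB
      _ ≤ 3 * N * A ^ 2 * D * (896 * (X * L * R) + 896 *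
          (Z ^ (1 / 3 : ℝ) * (L * R) ^ (1 / 3 : ℝ) * Q ^ (1 / 3 : ℝ))) := by
          refine mul_le_mul_of_nonneg_left ?_ (by positivity)
          linarith
      _ = K * (X * L * R + Z ^ (1 / 3 : ℝ) * (L * R) ^ (1 / 3 : ℝ) * Q ^ (1 / 3 : ℝ)) := by
          rw [hK]
          ring
  have hLR : (L : ℝ) * R ^ 2 ≤ Q := h3 W L
  -- the bound for `Z`
  have hLM : T ^ (1 + δ) / X ≤ (L : ℝ) := by
    rw [div_le_iff₀ hX0]
    calc T ^ (1 + δ) ≤ (N : ℝ) * L * L := hNLL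
      _ = L * X := by rw [hX]; ring
  have hL6 : (L : ℝ) ≤ T ^ (6 : ℕ) := by
    have e1 : (L : ℝ) ≤ T := by
      calc (L : ℝ) ≤ N * L := le_mul_of_one_le_left (by positivity) hN1
        _ ≤ T := hNL
    calc (L : ℝ) ≤ T := e1
      _ = T ^ 1 := (pow_one T).symm
      _ ≤ T ^ (6 : ℕ) := pow_le_pow_right₀ hT1 (by norm_num)
  have f1 : (L : ℝ) * SD X W ≤ Cs * T ^ (ε / 2) * X * Q :=
    Hs T hTs W hW X hX12 (hNL.trans hTd) L hLM hL6
  have f2 : ‖CS X W‖ ≤ Cc * T ^ (ε / 2 + 2 * δ) * (T ^ (2 : ℕ) * R ^ (3 / 2 : ℝ) +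
      X * T * q) := Hc T hTc W hW X hX12 (hNL.trans hTd)
  have hL0 : (0 : ℝ) < L := by linarith
  set Z1 : ℝ := 28 * Cc * T ^ (ε / 2 + 2 * δ) * (T ^ 2 * R ^ (3 / 2 : ℝ) + N * L * T * q)
    with hZ1
  set Z2 : ℝ := 28 * 192 * Cs * T ^ (ε / 2) * ((N : ℝ) ^ 2 * L) with hZ2
  have hZ10 : 0 ≤ Z1 := by positivity
  have hZ20 : 0 ≤ Z2 := by positivity
  have hZZ : Z ≤ Z1 + Z2 * Q := by
    have g1 : X * SD X W ≤ Cs * T ^ (ε / 2) * ((N : ℝ) ^ 2 * L) * Q := by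
      have g2 : (L : ℝ) * (X * SD X W) ≤ L * (Cs * T ^ (ε / 2) * ((N : ℝ) ^ 2 * L) * Q) := by
        calc (L : ℝ) * (X * SD X W) = X * (L * SD X W) := by ring
          _ ≤ X * (Cs * T ^ (ε / 2) * X * Q) := mul_le_mul_of_nonneg_left f1 hX0.le
          _ = L * (Cs * T ^ (ε / 2) * ((N : ℝ) ^ 2 * L) * Q) := by rw [hX]; ring
      exact le_of_mul_le_mul_left g2 hL0
    calc Z = 28 * ‖CS X W‖ + 28 * 192 * (X * SD X W) := by rw [hZ]; ring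
      _ ≤ 28 * (Cc * T ^ (ε / 2 + 2 * δ) * (T ^ (2 : ℕ) * R ^ (3 / 2 : ℝ) + X * T * q)) +
          28 * 192 * (Cs * T ^ (ε / 2) * ((N : ℝ) ^ 2 * L) * Q) := by
          have g3 := mul_le_mul_of_nonneg_left f2 (by norm_num : (0 : ℝ) ≤ 28)
          have g4 := mul_le_mul_of_nonneg_left g1 (by norm_num : (0 : ℝ) ≤ 28 * 192)
          linarith
      _ = Z1 + Z2 * Q := by rw [hZ1, hZ2, hX]; ring
  rcases BAR2 V Q K X L R Z Z1 Z2 hV.le hK0 hX0.le hL0 hR0 hZ0 hZ10 hZ20 hZZ hLR hmain with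
    hA1 | hA2
  · left
    have e1 : T ^ (ε / 6) ≤ T ^ ε := Real.rpow_le_rpow_of_exponent_le hT1 (by linarith)
    calc V ^ 2 * R ≤ 2 * K * X := hA1
      _ = C₁ * A ^ 2 * T ^ (ε / 6) * ((N : ℝ) ^ 2 * L) := by
          rw [hK, hDdef, hC₁, hX]
          ring
      _ ≤ (C₁ + C₂) * A ^ 2 * T ^ ε * ((N : ℝ) ^ 2 * L) := by
          refine mul_le_mul_of_nonneg_right ?_ (by positivity)
          refine mul_le_mul ?_ e1 (by positivity) (by positivity)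
          refine mul_le_mul_of_nonneg_right (by linarith) (by positivity)
  · right
    set M : ℝ := T ^ 2 * R ^ (3 / 2 : ℝ) + N * L * T * q + (N : ℝ) ^ 2 * (L : ℝ) ^ 2 * R ^ 2
      with hM
    have hM0 : 0 ≤ M := by positivity
    have g1 : 0 ≤ T ^ 2 * R ^ (3 / 2 : ℝ) := by positivity
    have g2 : 0 ≤ N * L * T * q := by positivity
    have g3 : 0 ≤ (N : ℝ) ^ 2 * (L : ℝ) ^ 2 * R ^ 2 := by positivity
    have f5 : Z1 + Z2 * (L * R ^ 2) ≤ 28 * (Cc + 192 * Cs) * T ^ (ε / 2 + 2 * δ) * M := by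
      have k1 : Z1 ≤ 28 * Cc * T ^ (ε / 2 + 2 * δ) * M := by
        rw [hZ1]
        refine mul_le_mul_of_nonneg_left ?_ (by positivity)
        rw [hM]
        linarith
      have k2 : Z2 * (L * R ^ 2) ≤ 28 * 192 * Cs * T ^ (ε / 2 + 2 * δ) * M := by
        calc Z2 * (L * R ^ 2) = 28 * 192 * Cs * T ^ (ε / 2) *
              ((N : ℝ) ^ 2 * (L : ℝ) ^ 2 * R ^ 2) := by rw [hZ2]; ring
          _ ≤ 28 * 192 * Cs * T ^ (ε / 2 + 2 * δ) * M := by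
              refine mul_le_mul ?_ ?_ g3 (by positivity)
              · exact mul_le_mul_of_nonneg_left
                  (Real.rpow_le_rpow_of_exponent_le hT1 (by linarith)) (by positivity)
              · rw [hM]
                linarith
      calc Z1 + Z2 * (L * R ^ 2) ≤ 28 * Cc * T ^ (ε / 2 + 2 * δ) * M +
            28 * 192 * Cs * T ^ (ε / 2 + 2 * δ) * M := add_le_add k1 k2
        _ = 28 * (Cc + 192 * Cs) * T ^ (ε / 2 + 2 * δ) * M := by ring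
    have f6 : K ^ 3 = (2688 * D₁) ^ 3 * T ^ (ε / 2) * (N : ℝ) ^ 3 * A ^ 6 := by
      have : (T ^ (ε / 6)) ^ 3 = T ^ (ε / 2) := by
        rw [← Real.rpow_natCast, ← Real.rpow_mul hT0.le]
        congr 1
        push_cast
        ring
      rw [hK, hDdef, ← this]
      ring
    have f7 : T ^ (ε / 2) * T ^ (ε / 2 + 2 * δ) = T ^ (ε + 2 * δ) := by
      rw [← Real.rpow_add hT0]
      congr 1
      ring
    calc V ^ 6 * (L * R ^ 3) ≤ 16 * K ^ 3 * (Z1 + Z2 * (L * R ^ 2)) := hA2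
      _ ≤ 16 * K ^ 3 * (28 * (Cc + 192 * Cs) * T ^ (ε / 2 + 2 * δ) * M) :=
          mul_le_mul_of_nonneg_left f5 (by positivity)
      _ = C₂ * A ^ 6 * (T ^ (ε / 2) * T ^ (ε / 2 + 2 * δ)) * ((N : ℝ) ^ 3 * M) := by
          rw [f6, hC₂]
          ring
      _ = C₂ * A ^ 6 * T ^ (ε + 2 * δ) * ((N : ℝ) ^ 3 * M) := by rw [f7]
      _ ≤ (C₁ + C₂) * A ^ 6 * T ^ (ε + 2 * δ) * ((N : ℝ) ^ 3 * M) := by
          refine mul_le_mul_of_nonneg_right ?_ (by positivity)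
          refine mul_le_mul_of_nonneg_right ?_ (by positivity)
          refine mul_le_mul_of_nonneg_right (by linarith) (by positivity)

end Pool.Agent.ZE
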