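import Pool.Agent.helper34.ZE.LVB

/-!
# Class one for `37/50 ≤ σ ≤ 3/4` with the exponent `12 (1 - σ) / (9 σ - 1)`
-/

set_option autoImplicit false

open Complex MeasureTheory

namespace Pool.Agent.ZE

open Pool.Agent.helper84.DM Pool.Agent.helper78.ED Pool.Agent.DH Pool.Agent.ZD Pool.Agent.NF

/-- The exponent. -/
noncomputable def wB (s : ℝ) : ℝ := 12 * (1 - s) / (9 * s - 1)

theorem wB_low {s : ℝ} (h1 : 37 / 50 ≤ s) (h2 : s ≤ 3 / 4) : 2 * (1 - s) ≤ wB s := by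
  unfold wB
  rw [le_div_iff₀ (by linarith)]
  nlinarith

theorem wB_nonneg {s : ℝ} (h1 : 37 / 50 ≤ s) (h2 : s ≤ 3 / 4) : 0 ≤ wB s :=
  le_trans (by linarith) (wB_low h1 h2)

theorem wB_le {s : ℝ} (h1 : 37 / 50 ≤ s) (h2 : s ≤ 3 / 4) : wB s ≤ 1 := by
  unfold wB
  rw [div_le_one (by linarith)]
  linarith

/-- `T ^ (1/2) ≤ N ≤ T ^ (1/2 + δ)`. -/
def CZHB_stmt : Prop := ∀ ε : ℝ, 0 < ε → ∃ κ : ℝ, 0 < κ ∧ κ ≤ 1 ∧
  ∀ C₁ δ : ℝ, 0 < C₁ → 0 < δ → δ ≤ 1 / 4 → ∃ C T₀ : ℝ, 0 < C ∧ ∀ T : ℝ, T₀ ≤ T → ∀ σ : ℝ,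
  37 / 50 ≤ σ → σ ≤ 3 / 4 → ∀ N : ℕ, T ^ (1 / 2 : ℝ) ≤ (N : ℝ) → (N : ℝ) ≤ T ^ (1 / 2 + δ) →
  ∀ a : ℕ → ℂ, (∀ n ∈ Finset.Ioc N (2 * N), ‖a n‖ ≤ C₁ * T ^ κ) → ∀ W : Finset ℝ, Sep 0 T W →
  (∀ t ∈ W, (N : ℝ) ^ σ / (4 * C₁ * Real.log T) ≤ ‖DP N a t‖) →
    (W.card : ℝ) ≤ C * T ^ (wB σ + ε + 4 * δ)

theorem CZHB (h1 : NVM_stmt) (h2 : NMV_stmt) : CZHB_stmt := by
  intro ε hε
  obtain ⟨κ, hκ, hκ1, hK⟩ := h1 ε 2 hε (by norm_num)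
  refine ⟨κ, hκ, hκ1, fun C₁ δ hC₁ hδ hδ4 => ?_⟩
  obtain ⟨C, T₀, hC, hT⟩ := hK C₁ hC₁
  refine ⟨C * 2, max T₀ 1, by positivity, ?_⟩
  intro T hTT σ hσ hσ' N hN1 hN2 a ha W hW hlarge
  have hT0 : T₀ ≤ T := (le_max_left _ _).trans hTT
  have hT1 : 1 ≤ T := (le_max_right _ _).trans hTT
  have hTp : 0 < T := by linarith
  have hw := wB_low hσ hσ'
  have hNp : 0 < (N : ℝ) := lt_of_lt_of_le (Real.rpow_pos_of_pos hTp _) hN1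
  have hN1' : 1 ≤ N := by
    have : (0 : ℕ) < N := by exact_mod_cast hNp
    omega
  have hNT : (N : ℝ) ≤ T := by
    refine hN2.trans ?_
    calc T ^ (1 / 2 + δ) ≤ T ^ (1 : ℝ) := Real.rpow_le_rpow_of_exponent_le hT1 (by linarith)
      _ = T := Real.rpow_one T
  have hmain := hT T hT0 σ N 2 hN1' hNT (by norm_num) (by norm_num) a ha W hW hlarge
  have hM1 : T ≤ (N : ℝ) ^ 2 := by
    have h := pow_le_pow_left₀ (Real.rpow_nonneg hTp.le _) hN1 2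
    rw [← Real.rpow_natCast, ← Real.rpow_mul hTp.le] at h
    norm_num at h
    exact h
  have hM2 : (N : ℝ) ^ 2 ≤ T ^ (1 + 2 * δ) := by
    have h := pow_le_pow_left₀ hNp.le hN2 2
    refine h.trans (le_of_eq ?_)
    rw [← Real.rpow_natCast, ← Real.rpow_mul hTp.le]
    congr 1
    push_cast
    ring
  have h4 := h2 T ((N : ℝ) ^ 2) σ (wB σ + 4 * δ) (1 + 2 * δ) hT1 (by positivity) (by linarith) (by linarith)
    hM2 (by nlinarith) (by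
      calc T ^ (1 - (wB σ + 4 * δ)) ≤ T ^ (2 * σ - 1) :=
            Real.rpow_le_rpow_of_exponent_le hT1 (by linarith)
        _ ≤ ((N : ℝ) ^ 2) ^ (2 * σ - 1) := Real.rpow_le_rpow hTp.le hM1 (by linarith))
  calc (W.card : ℝ) ≤ C * T ^ ε * ((T + (N : ℝ) ^ 2) * (N : ℝ) ^ 2 * ((N : ℝ) ^ 2) ^ (-(2 * σ))) := hmain
    _ ≤ C * T ^ ε * (2 * T ^ (wB σ + 4 * δ)) :=
        mul_le_mul_of_nonneg_left h4 (by positivity)
    _ = C * 2 * (T ^ ε * T ^ (wB σ + 4 * δ)) := by ring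
    _ = C * 2 * T ^ (wB σ + ε + 4 * δ) := by
        rw [← Real.rpow_add hTp]
        congr 2
        ring

/-- the four terms -/
theorem NLWB (T M σ w b₁ : ℝ) (hT : 1 ≤ T) (h1 : 37 / 50 ≤ σ) (h2 : σ ≤ 3 / 4)
    (hw : w * (9 * σ - 1) = 12 * (1 - σ)) (hb1 : 3 / 4 ≤ b₁) (hb2 : 6 / 7 + b₁ * (18 / 7 - 4 * σ) ≤ w)
    (hM1 : T ^ b₁ ≤ M) (hM2 : M ≤ T ^ (22 / 23 : ℝ)) :
    M ^ (2 : ℕ) * M ^ (-(2 * σ)) + (T ^ (1 / 2 : ℝ) * M ^ (3 : ℕ) + T ^ (6 / 7 : ℝ) * M ^ (18 / 7 : ℝ)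
      + T * M ^ (2 : ℕ)) * M ^ (-(4 * σ)) ≤ 4 * T ^ w := by
  have hT0 : 0 < T := by linarith
  have hD : 0 < 9 * σ - 1 := by linarith
  have hM0 : 0 < M := lt_of_lt_of_le (Real.rpow_pos_of_pos hT0 _) hM1
  have q1 : 2 - 2 * σ ≤ w := by
    have : 0 ≤ (9 * σ - 1) * (w - (2 - 2 * σ)) := by nlinarith
    have := EXP_nonneg hD this
    linarith
  have q2 : 1 / 2 + 22 / 23 * (3 - 4 * σ) ≤ w := by
    have : 0 ≤ (9 * σ - 1) * (w - (1 / 2 + 22 / 23 * (3 - 4 * σ))) := by nlinarith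
    have := EXP_nonneg hD this
    linarith
  have q3 : 1 + 3 / 4 * (2 - 4 * σ) ≤ w := by
    have : 0 ≤ (9 * σ - 1) * (w - (1 + 3 / 4 * (2 - 4 * σ))) := by nlinarith
    have := EXP_nonneg hD this
    linarith
  -- powers of `M` from above and from below
  have up : ∀ x : ℝ, 0 ≤ x → M ^ x ≤ T ^ (22 / 23 * x) := by
    intro x hx
    rw [Real.rpow_mul hT0.le]
    exact Real.rpow_le_rpow hM0.le hM2 hx
  have lo : ∀ x : ℝ, x ≤ 0 → M ^ x ≤ T ^ (b₁ * x) := by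
    intro x hx
    rw [Real.rpow_mul hT0.le]
    exact Real.rpow_le_rpow_of_nonpos (Real.rpow_pos_of_pos hT0 _) hM1 hx
  have t1 : M ^ (2 : ℕ) * M ^ (-(2 * σ)) ≤ T ^ w := by
    rw [← Real.rpow_natCast M 2, ← Real.rpow_add hM0]
    refine (up _ (by push_cast; linarith)).trans (Real.rpow_le_rpow_of_exponent_le hT ?_)
    push_cast
    linarith
  have t2 : T ^ (1 / 2 : ℝ) * M ^ (3 : ℕ) * M ^ (-(4 * σ)) ≤ T ^ w := by
    rw [mul_assoc, ← Real.rpow_natCast M 3, ← Real.rpow_add hM0]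
    refine (mul_le_mul_of_nonneg_left (up _ (by push_cast; linarith))
      (Real.rpow_pos_of_pos hT0 _).le).trans ?_
    rw [← Real.rpow_add hT0]
    refine Real.rpow_le_rpow_of_exponent_le hT ?_
    push_cast
    linarith
  have t3 : T ^ (6 / 7 : ℝ) * M ^ (18 / 7 : ℝ) * M ^ (-(4 * σ)) ≤ T ^ w := by
    rw [mul_assoc, ← Real.rpow_add hM0]
    refine (mul_le_mul_of_nonneg_left (lo _ (by linarith)) (Real.rpow_pos_of_pos hT0 _).le).trans ?_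
    rw [← Real.rpow_add hT0]
    refine Real.rpow_le_rpow_of_exponent_le hT ?_
    have e : b₁ * (18 / 7 + -(4 * σ)) = b₁ * (18 / 7 - 4 * σ) := by ring
    rw [e]
    exact hb2
  have t4 : T * M ^ (2 : ℕ) * M ^ (-(4 * σ)) ≤ T ^ w := by
    rw [mul_assoc, ← Real.rpow_natCast M 2, ← Real.rpow_add hM0]
    refine (mul_le_mul_of_nonneg_left (lo _ (by push_cast; linarith)) hT0.le).trans ?_
    calc T * T ^ (b₁ * (((2 : ℕ) : ℝ) + -(4 * σ))) = T ^ (1 + b₁ * (((2 : ℕ) : ℝ) + -(4 * σ))) := by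
          rw [Real.rpow_add hT0, Real.rpow_one]
      _ ≤ T ^ w := by
          refine Real.rpow_le_rpow_of_exponent_le hT ?_
          push_cast
          nlinarith
  have e : M ^ (2 : ℕ) * M ^ (-(2 * σ)) + (T ^ (1 / 2 : ℝ) * M ^ (3 : ℕ) +
      T ^ (6 / 7 : ℝ) * M ^ (18 / 7 : ℝ) + T * M ^ (2 : ℕ)) * M ^ (-(4 * σ)) =
      M ^ (2 : ℕ) * M ^ (-(2 * σ)) + (T ^ (1 / 2 : ℝ) * M ^ (3 : ℕ) * M ^ (-(4 * σ)) +
        T ^ (6 / 7 : ℝ) * M ^ (18 / 7 : ℝ) * M ^ (-(4 * σ)) +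
        T * M ^ (2 : ℕ) * M ^ (-(4 * σ))) := by ring
  rw [e]
  linarith

/-- the case of one power `M = N ^ k`, `T ^ b₁ ≤ M ≤ T ^ β` -/
theorem CZB_pow (h3 : NMV_stmt) (T M σ w β b₁ ε C₂ C₃ R : ℝ)
    (hT : 1 ≤ T) (hσ1 : 37 / 50 ≤ σ) (hσ2 : σ ≤ 3 / 4) (hw : w = 12 * (1 - σ) / (9 * σ - 1))
    (hβ : β = 6 / (9 * σ - 1)) (hb1 : 3 / 4 ≤ b₁) (hb2 : 6 / 7 + b₁ * (18 / 7 - 4 * σ) ≤ w)
    (hM1 : T ^ b₁ ≤ M) (hM2 : M ≤ T ^ β)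
    (hC₂ : 0 < C₂) (hC₃ : 0 < C₃)
    (hV : R ≤ C₂ * T ^ ε * ((T + M) * M * M ^ (-(2 * σ))))
    (hL : M ≤ T ^ (22 / 23 : ℝ) → R ≤ C₃ * T ^ ε * (M ^ (2 : ℕ) * M ^ (-(2 * σ)) +
      (T ^ (1 / 2 : ℝ) * M ^ (3 : ℕ) + T ^ (6 / 7 : ℝ) * M ^ (18 / 7 : ℝ)
        + T * M ^ (2 : ℕ)) * M ^ (-(4 * σ)))) :
    R ≤ (2 * C₂ + 4 * C₃) * T ^ (w + ε) := by
  have hT0 : 0 < T := by linarith
  have hM0 : 0 < M := lt_of_lt_of_le (Real.rpow_pos_of_pos hT0 _) hM1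
  have hs : 0 < 9 * σ - 1 := by linarith
  have hwD : w * (9 * σ - 1) = 12 * (1 - σ) := by rw [hw, div_mul_cancel₀ _ hs.ne']
  have hTw : 0 < T ^ w := Real.rpow_pos_of_pos hT0 _
  have hTe : 0 < T ^ ε := Real.rpow_pos_of_pos hT0 _
  have hadd : T ^ (w + ε) = T ^ w * T ^ ε := Real.rpow_add hT0 _ _
  have hp : 0 < T ^ w * T ^ ε := mul_pos hTw hTe
  rcases le_total (T ^ (1 - w)) (M ^ (2 * σ - 1)) with hc | hc
  · have h1 := h3 T M σ w β hT hM0 (by linarith) (by linarith) hM2 (by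
      rw [hw, hβ]
      apply le_of_eq
      field_simp
      ring) hc
    have h2 : C₂ * T ^ ε * ((T + M) * M * M ^ (-(2 * σ))) ≤ C₂ * T ^ ε * (2 * T ^ w) :=
      mul_le_mul_of_nonneg_left h1 (by positivity)
    have h4 : C₂ * T ^ ε * (2 * T ^ w) = 2 * C₂ * (T ^ w * T ^ ε) := by ring
    have h5 : 0 ≤ 4 * C₃ * (T ^ w * T ^ ε) := by positivity
    rw [hadd]
    linarith
  · have h2σ : 0 < 2 * σ - 1 := by linarith
    have hexp : (1 - w) / (2 * σ - 1) ≤ 22 / 23 := by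
      rw [div_le_iff₀ h2σ, hw]
      have e1 : 1 - 12 * (1 - σ) / (9 * σ - 1) = (21 * σ - 13) / (9 * σ - 1) := by
        rw [eq_div_iff hs.ne', sub_mul, div_mul_cancel₀ _ hs.ne']
        ring
      rw [e1, div_le_iff₀ hs]
      nlinarith [mul_nonneg (sub_nonneg.2 hσ2) (by linarith : (0 : ℝ) ≤ 428 - 396 * σ)]
    have hM12 : M ≤ T ^ (22 / 23 : ℝ) := by
      have e1 : M = (M ^ (2 * σ - 1)) ^ (1 / (2 * σ - 1)) := by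
        rw [← Real.rpow_mul hM0.le, mul_one_div, div_self h2σ.ne', Real.rpow_one]
      rw [e1]
      calc (M ^ (2 * σ - 1)) ^ (1 / (2 * σ - 1)) ≤ (T ^ (1 - w)) ^ (1 / (2 * σ - 1)) :=
            Real.rpow_le_rpow (Real.rpow_nonneg hM0.le _) hc (by positivity)
        _ = T ^ ((1 - w) / (2 * σ - 1)) := by
            rw [← Real.rpow_mul hT0.le]
            congr 1
            ring
        _ ≤ T ^ (22 / 23 : ℝ) := Real.rpow_le_rpow_of_exponent_le hT hexp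
    have h1 := hL hM12
    have h2 := NLWB T M σ w b₁ hT hσ1 hσ2 hwD hb1 hb2 hM1 hM12
    have h4 : C₃ * T ^ ε * (M ^ (2 : ℕ) * M ^ (-(2 * σ)) +
      (T ^ (1 / 2 : ℝ) * M ^ (3 : ℕ) + T ^ (6 / 7 : ℝ) * M ^ (18 / 7 : ℝ)
        + T * M ^ (2 : ℕ)) * M ^ (-(4 * σ))) ≤ C₃ * T ^ ε * (4 * T ^ w) :=
      mul_le_mul_of_nonneg_left h2 (by positivity)
    have h5 : C₃ * T ^ ε * (4 * T ^ w) = 4 * C₃ * (T ^ w * T ^ ε) := by ring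
    have h7 : 0 ≤ 2 * C₂ * (T ^ w * T ^ ε) := by positivity
    rw [hadd]
    linarith

/-- Class one for `N ≤ T ^ (1/2)`. -/
def CZB_stmt : Prop := ∀ ε : ℝ, 0 < ε → ∃ ϑ₀ : ℝ, 0 < ϑ₀ ∧ ∀ ϑ : ℝ, 0 < ϑ → ϑ ≤ ϑ₀ →
  ∀ δ : ℝ, 0 < δ → δ ≤ 1 / 4 → ∃ κ : ℝ, 0 < κ ∧ κ ≤ 1 ∧
  ∀ C₁ : ℝ, 0 < C₁ → ∃ C T₀ : ℝ, 0 < C ∧ ∀ T : ℝ, T₀ ≤ T → ∀ σ : ℝ, 37 / 50 ≤ σ → σ ≤ 3 / 4 →
  ∀ N : ℕ, T ^ δ / 2 ≤ (N : ℝ) → (N : ℝ) ≤ T ^ (1 / 2 : ℝ) → ∀ a : ℕ → ℂ,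
  (∀ n ∈ Finset.Ioc N (2 * N), ‖a n‖ ≤ C₁ * T ^ κ) → ∀ W : Finset ℝ, Sep ϑ T W →
  (∀ t ∈ W, (N : ℝ) ^ σ / (4 * C₁ * Real.log T) ≤ ‖DP N a t‖) →
    (W.card : ℝ) ≤ C * T ^ (wB σ + ε)

theorem CZB (h1 : NPW_stmt) (h2 : NVM_stmt) (h3 : NMV_stmt) (h5 : NVW_stmt) (h7 : LVB_stmt) :
    CZB_stmt := by
  intro ε hε
  obtain ⟨ϑ₀, hϑ₀, hZ⟩ := h7 ε hε
  refine ⟨ϑ₀, hϑ₀, ?_⟩
  intro ϑ hϑ hϑ' δ hδ hδ'
  obtain ⟨κ₁, hκ₁, hκ₁', hZ'⟩ := hZ ϑ hϑ hϑ'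
  obtain ⟨K, hKd⟩ : ∃ K : ℕ, K = ⌊3 / δ⌋₊ := ⟨_, rfl⟩
  have h12 : (12 : ℝ) ≤ 3 / δ := by
    rw [le_div_iff₀ hδ]
    linarith
  have hK2 : 2 ≤ K := by
    rw [hKd]
    exact Nat.le_floor (by push_cast; linarith)
  have hKle : ∀ k : ℕ, (k : ℝ) ≤ 3 / δ → k ≤ K := by
    intro k hk
    rw [hKd]
    exact Nat.le_floor hk
  obtain ⟨κ₂, hκ₂, hκ₂', hM⟩ := h2 ε K hε (by omega)
  obtain ⟨κ₃, hκ₃, hκ₃', hL⟩ := h5 ε K hε (by omega)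
  obtain ⟨T₄, hP⟩ := h1 δ hδ hδ'
  refine ⟨min κ₁ (min κ₂ κ₃), lt_min hκ₁ (lt_min hκ₂ hκ₃), (min_le_left _ _).trans hκ₁', ?_⟩
  intro C₁ hC₁
  obtain ⟨CZ, TZ, hCZ, hZ''⟩ := hZ' C₁ hC₁
  obtain ⟨C₂, T₂, hC₂, hM'⟩ := hM C₁ hC₁
  obtain ⟨C₃, T₃, hC₃, hL'⟩ := hL C₁ hC₁
  refine ⟨CZ + (2 * C₂ + 4 * C₃), max (max TZ T₂) (max (max T₃ T₄) ((2 : ℝ) ^ (23 * K))),
    by positivity, ?_⟩
  intro T hT σ hσ1 hσ2 N hN1 hN2 a ha W hW hlarge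
  have hTZ : TZ ≤ T := ((le_max_left _ _).trans (le_max_left _ _)).trans hT
  have hT2 : T₂ ≤ T := ((le_max_right _ _).trans (le_max_left _ _)).trans hT
  have hT3 : T₃ ≤ T := (((le_max_left _ _).trans (le_max_left _ _)).trans
    (le_max_right _ _)).trans hT
  have hT4 : T₄ ≤ T := (((le_max_right _ _).trans (le_max_left _ _)).trans
    (le_max_right _ _)).trans hT
  have hT5 : (2 : ℝ) ^ (23 * K) ≤ T := ((le_max_right _ _).trans (le_max_right _ _)).trans hT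
  have hT1 : 1 ≤ T := (one_le_pow₀ (by norm_num)).trans hT5
  have hT0 : 0 < T := by linarith
  have hs : 0 < 9 * σ - 1 := by linarith
  obtain ⟨w, hw⟩ : ∃ w : ℝ, w = 12 * (1 - σ) / (9 * σ - 1) := ⟨_, rfl⟩
  obtain ⟨β, hβ⟩ : ∃ β : ℝ, β = 6 / (9 * σ - 1) := ⟨_, rfl⟩
  have hwA : wB σ = w := by
    rw [hw]
    rfl
  have hwD : w * (9 * σ - 1) = 12 * (1 - σ) := by rw [hw, div_mul_cancel₀ _ hs.ne']
  have hβD : β * (9 * σ - 1) = 6 := by rw [hβ, div_mul_cancel₀ _ hs.ne']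
  have hβ1 : 1 ≤ β := by
    rw [hβ, le_div_iff₀ hs]
    linarith
  have hβ2 : β ≤ 9 / 8 := by
    rw [hβ, div_le_iff₀ hs]
    linarith
  have hbb1 : 6 / 7 + β * (3 / 4) * (18 / 7 - 4 * σ) ≤ w := by
    have : 0 ≤ (9 * σ - 1) * (w - (6 / 7 + β * (3 / 4) * (18 / 7 - 4 * σ))) := by
      have e : (9 * σ - 1) * (w - (6 / 7 + β * (3 / 4) * (18 / 7 - 4 * σ))) =
          w * (9 * σ - 1) - 6 / 7 * (9 * σ - 1) -
            (β * (9 * σ - 1)) * (3 / 4) * (18 / 7 - 4 * σ) := by ring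
      rw [e, hwD, hβD]
      linarith
    have := EXP_nonneg hs this
    linarith
  have hbb2 : 6 / 7 + 79 / 100 * (18 / 7 - 4 * σ) ≤ w := by
    have : 0 ≤ (9 * σ - 1) * (w - (6 / 7 + 79 / 100 * (18 / 7 - 4 * σ))) := by
      have e : (9 * σ - 1) * (w - (6 / 7 + 79 / 100 * (18 / 7 - 4 * σ))) =
          w * (9 * σ - 1) - (9 * σ - 1) * (6 / 7 + 79 / 100 * (18 / 7 - 4 * σ)) := by ring
      rw [e, hwD]
      nlinarith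
    have := EXP_nonneg hs this
    linarith
  have hβ34 : 3 / 4 ≤ β * (3 / 4) := by linarith
  have hNpos : (0 : ℝ) < N := lt_of_lt_of_le (by positivity) hN1
  have hN1' : 1 ≤ N := by exact_mod_cast hNpos
  have hNT : (N : ℝ) ≤ T := by
    refine hN2.trans ?_
    calc T ^ (1 / 2 : ℝ) ≤ T ^ (1 : ℝ) := Real.rpow_le_rpow_of_exponent_le hT1 (by norm_num)
      _ = T := Real.rpow_one T
  have hco : ∀ κ' : ℝ, min κ₁ (min κ₂ κ₃) ≤ κ' → ∀ n ∈ Finset.Ioc N (2 * N),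
      ‖a n‖ ≤ C₁ * T ^ κ' := by
    intro κ' hκ' n hn
    exact (ha n hn).trans (mul_le_mul_of_nonneg_left
      (Real.rpow_le_rpow_of_exponent_le hT1 hκ') hC₁.le)
  have hW0 : Sep 0 T W := by
    refine ⟨hW.1, fun t ht t' ht' hne => ?_⟩
    exact (Real.rpow_le_rpow_of_exponent_le hT1 hϑ.le).trans (hW.2 t ht t' ht' hne)
  have hTwe : 0 < T ^ (w + ε) := Real.rpow_pos_of_pos hT0 _
  -- one power
  have hpow : ∀ (k : ℕ) (b₁ : ℝ), 1 ≤ k → k ≤ K → 3 / 4 ≤ b₁ →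
      6 / 7 + b₁ * (18 / 7 - 4 * σ) ≤ w → T ^ b₁ ≤ (N : ℝ) ^ k → (N : ℝ) ^ k ≤ T ^ β →
      (W.card : ℝ) ≤ (2 * C₂ + 4 * C₃) * T ^ (w + ε) := by
    intro k b₁ hk1 hkK hbk hbk' hk2 hk3
    refine CZB_pow h3 T ((N : ℝ) ^ k) σ w β b₁ ε C₂ C₃ W.card hT1 hσ1 hσ2 hw hβ hbk hbk' hk2 hk3
      hC₂ hC₃ ?_ ?_
    · exact hM' T hT2 σ N k hN1' hNT hk1 hkK a
        (hco κ₂ ((min_le_right _ _).trans (min_le_left _ _))) W hW0 hlarge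
    · intro hk4
      refine hL' T hT3 σ N k hN1' ?_ hk1 hkK a
        (hco κ₃ ((min_le_right _ _).trans (min_le_right _ _))) W hW0 hlarge
      have e1 : (2 : ℝ) ^ k ≤ T ^ (1 / 23 : ℝ) := by
        have e2 : (2 : ℝ) ^ k ≤ (2 : ℝ) ^ K := pow_le_pow_right₀ (by norm_num) hkK
        have e3 : ((2 : ℝ) ^ K) = ((2 : ℝ) ^ (23 * K)) ^ (1 / 23 : ℝ) := by
          rw [mul_comm, pow_mul, ← Real.rpow_natCast (((2 : ℝ) ^ K)) 23, ← Real.rpow_mul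
            (by positivity)]
          norm_num
        rw [e3] at e2
        exact e2.trans (Real.rpow_le_rpow (by positivity) hT5 (by norm_num))
      rw [mul_pow]
      calc (2 : ℝ) ^ k * (N : ℝ) ^ k ≤ T ^ (1 / 23 : ℝ) * T ^ (22 / 23 : ℝ) :=
            mul_le_mul e1 hk4 (by positivity) (by positivity)
        _ = T := by
            rw [← Real.rpow_add hT0]
            norm_num
  rw [hwA]
  rcases le_total (N : ℝ) (T ^ (β / 3)) with hc | hc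
  · obtain ⟨k, hk3, hkd, hk1, hk2⟩ := hP T hT4 N 3 β (by norm_num) (by linarith) (by linarith)
      hN1 (by push_cast; exact hc)
    have h8 := hpow k (β * (3 / 4)) (by omega) (hKle k hkd) hβ34 hbb1
      ((Real.rpow_le_rpow_of_exponent_le hT1 (by
      push_cast
      linarith)).trans hk1) hk2
    have h9 : (CZ + (2 * C₂ + 4 * C₃)) * T ^ (w + ε) =
        CZ * T ^ (w + ε) + (2 * C₂ + 4 * C₃) * T ^ (w + ε) := by ring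
    have h10 : 0 ≤ CZ * T ^ (w + ε) := by positivity
    linarith
  · rcases le_total (N : ℝ) (T ^ (79 / 200 : ℝ)) with hd | hd
    · have hβ3 : 2 / (9 * σ - 1) = β / 3 := by
        rw [hβ, div_div, div_eq_div_iff hs.ne' (mul_ne_zero hs.ne' (by norm_num))]
        ring
      have h8 := hZ'' T hTZ σ hσ1 hσ2 W hW N a (by rw [hβ3]; exact hc) hd
        (hco κ₁ (min_le_left _ _)) hlarge
      rw [← hw] at h8
      have h9 : (CZ + (2 * C₂ + 4 * C₃)) * T ^ (w + ε) =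
          CZ * T ^ (w + ε) + (2 * C₂ + 4 * C₃) * T ^ (w + ε) := by ring
      have h10 : 0 ≤ (2 * C₂ + 4 * C₃) * T ^ (w + ε) := by positivity
      linarith
    · have e1 : T ^ (79 / 100 : ℝ) ≤ (N : ℝ) ^ 2 := by
        calc T ^ (79 / 100 : ℝ) = (T ^ (79 / 200 : ℝ)) ^ 2 := by
              rw [← Real.rpow_natCast, ← Real.rpow_mul hT0.le]
              norm_num
          _ ≤ (N : ℝ) ^ 2 := pow_le_pow_left₀ (by positivity) hd 2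
      have e2 : (N : ℝ) ^ 2 ≤ T ^ β := by
        calc (N : ℝ) ^ 2 ≤ (T ^ (1 / 2 : ℝ)) ^ 2 := pow_le_pow_left₀ hNpos.le hN2 2
          _ = T ^ (1 : ℝ) := by
              rw [← Real.rpow_natCast, ← Real.rpow_mul hT0.le]
              norm_num
          _ ≤ T ^ β := Real.rpow_le_rpow_of_exponent_le hT1 (by linarith)
      have h8 := hpow 2 (79 / 100) (by norm_num) hK2 (by norm_num) hbb2 e1 e2
      have h9 : (CZ + (2 * C₂ + 4 * C₃)) * T ^ (w + ε) =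
          CZ * T ^ (w + ε) + (2 * C₂ + 4 * C₃) * T ^ (w + ε) := by ring
      have h10 : 0 ≤ CZ * T ^ (w + ε) := by positivity
      linarith

end Pool.Agent.ZE
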