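import Pool.Agent.helper34.ZE.BEJ

/-!
# The exponents for `37/50 ≤ s ≤ 3/4`
-/

set_option autoImplicit false

namespace Pool.Agent.ZE

open Pool.Agent.ZD

theorem EXP_nonneg {D x : ℝ} (hD : 0 < D) (h : 0 ≤ D * x) : 0 ≤ x := by
  by_contra hx
  push Not at hx
  nlinarith

theorem EXP (s b w : ℝ) (hs : 37 / 50 ≤ s) (hs' : s ≤ 3 / 4) (hw : w * (9 * s - 1) = 12 * (1 - s))
    (hb : 4 ≤ b * (9 * s - 1)) (hb' : b ≤ 79 / 100) : ∃ l : ℝ, EXJ s b w l := by
  have hD : 0 < 9 * s - 1 := by linarith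
  have hb0 : 0 < b := by
    by_contra h
    push Not at h
    nlinarith
  have hw1 : w ≤ 3 / 5 := by
    have : 0 ≤ (9 * s - 1) * (3 / 5 - w) := by nlinarith
    have := EXP_nonneg hD this
    linarith
  have hw0 : 1 / 2 ≤ w := by
    have : 0 ≤ (9 * s - 1) * (w - 1 / 2) := by nlinarith
    have := EXP_nonneg hD this
    linarith
  have hb1 : 69 / 100 ≤ b := by
    have : 0 ≤ (9 * s - 1) * (b - 69 / 100) := by nlinarith
    have := EXP_nonneg hD this
    linarith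
  have hsg : sg w = 3 / 2 * w + 1 / 3 := by
    unfold sg
    rw [max_eq_right]
    linarith
  have k1 : 2 + b * (5 - 8 * s) ≤ 5 / 2 * w := by
    have h1 : 0 ≤ (8 * s - 5) * (b * (9 * s - 1) - 4) := mul_nonneg (by linarith) (by linarith)
    have h2 : 0 ≤ (9 * s - 1) * (5 / 2 * w - 2 - b * (5 - 8 * s)) := by nlinarith
    have := EXP_nonneg hD h2
    linarith
  have k2 : 1 / 2 + b * (3 / 2 - 2 * s) + 1 / 2000 ≤ w := by
    have h1 : 0 ≤ (79 / 100 - b) * (3 / 2 - 2 * s) := mul_nonneg (by linarith) (by linarith)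
    have h2 : 0 ≤ (9 * s - 1) * (w - 1 / 2 - 1 / 2000 - 79 / 100 * (3 / 2 - 2 * s)) := by nlinarith
    have := EXP_nonneg hD h2
    linarith
  have k3 : 2 + 8 * b - 12 * (b * s) ≤ 5 / 2 * w := by
    have h1 : 0 ≤ (12 * s - 8) * (b * (9 * s - 1) - 4) := mul_nonneg (by linarith) (by linarith)
    have h2 : 0 ≤ (9 * s - 1) * (5 / 2 * w - 2 - 8 * b + 12 * (b * s)) := by nlinarith
    have := EXP_nonneg hD h2
    linarith
  have k4 : 1 / 2 + 1 / 2000 ≤ b * (6 * s - 9 / 2) + w := by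
    have h1 : 0 ≤ (79 / 100 - b) * (9 / 2 - 6 * s) := mul_nonneg (by linarith) (by linarith)
    have h2 : 0 ≤ (9 * s - 1) * (79 / 100 * (6 * s - 9 / 2) + w - 1 / 2 - 1 / 2000) := by
      have h3 : (9 * s - 1) * (79 / 100 * (6 * s - 9 / 2) + w - 1 / 2 - 1 / 2000) =
          (9 * s - 1) * (79 / 100 * (6 * s - 9 / 2) - 1 / 2 - 1 / 2000) + 12 * (1 - s) := by
        rw [← hw]
        ring
      rw [h3]
      nlinarith [mul_nonneg (sub_nonneg.2 hs) (sub_nonneg.2 hs)]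
    have := EXP_nonneg hD h2
    linarith
  have k5 : 1 + b * (4 - 6 * s) ≤ 3 / 2 * w := by
    have h1 : 0 ≤ (6 * s - 4) * (b * (9 * s - 1) - 4) := mul_nonneg (by linarith) (by linarith)
    have h2 : 0 ≤ (9 * s - 1) * (3 / 2 * w - 1 - b * (4 - 6 * s)) := by nlinarith
    have := EXP_nonneg hD h2
    linarith
  have k6 : 1 + b * (11 / 2 - 15 / 2 * s) ≤ 7 / 4 * w := by
    have h1 : 0 ≤ (15 / 2 * s - 11 / 2) * (b * (9 * s - 1) - 4) :=
      mul_nonneg (by linarith) (by linarith)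
    have h2 : 0 ≤ (9 * s - 1) * (7 / 4 * w - 1 - b * (11 / 2 - 15 / 2 * s)) := by nlinarith
    have := EXP_nonneg hD h2
    linarith
  have k7 : 10 / 9 + b * (5 - 22 / 3 * s) ≤ 3 / 2 * w := by
    have h1 : 0 ≤ (22 / 3 * s - 5) * (b * (9 * s - 1) - 4) :=
      mul_nonneg (by linarith) (by linarith)
    have h2 : 0 ≤ (9 * s - 1) * (3 / 2 * w - 10 / 9 - b * (5 - 22 / 3 * s)) := by nlinarith
    have := EXP_nonneg hD h2
    linarith
  have k8 : 2 + 4 * b - 3 / 2 * w - 6 * (b * s) ≤ 9 / 10 := by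
    have h1 : 0 ≤ (6 * s - 4) * (b * (9 * s - 1) - 4) := mul_nonneg (by linarith) (by linarith)
    have h2 : 0 ≤ (9 * s - 1) * (9 / 10 - 2 - 4 * b + 3 / 2 * w + 6 * (b * s)) := by nlinarith
    have := EXP_nonneg hD h2
    linarith
  refine ⟨max ((1 - b) / 2 + 1 / 2000) (2 + 3 * b - 3 / 2 * w - 6 * (b * s)), ?_⟩
  have hl1 := le_max_left ((1 - b) / 2 + 1 / 2000) (2 + 3 * b - 3 / 2 * w - 6 * (b * s))
  have hl2 := le_max_right ((1 - b) / 2 + 1 / 2000) (2 + 3 * b - 3 / 2 * w - 6 * (b * s))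
  have hcase : ∀ z : ℝ, (1 - b) / 2 + 1 / 2000 ≤ z → 2 + 3 * b - 3 / 2 * w - 6 * (b * s) ≤ z →
      max ((1 - b) / 2 + 1 / 2000) (2 + 3 * b - 3 / 2 * w - 6 * (b * s)) ≤ z :=
    fun z h1 h2 => max_le h1 h2
  have m1 := hcase (9 / 10 - b) (by linarith) (by linarith)
  have m2 := hcase (w - 2 * b * (1 - s)) (by linarith) (by linarith)
  have m3 := hcase (6 * (b * s) + w - 5 * b) (by linarith) (by linarith)
  refine ⟨by linarith, by linarith, by linarith, by linarith, by linarith, by linarith,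
    by linarith, by linarith, ?_, ?_⟩
  · rw [hsg]
    linarith
  · rw [hsg]
    linarith

end Pool.Agent.ZE
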