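import Pool.Agent.helper86.NF.SpecC
import Pool.Agent.helper61.ZD.LVN
import Pool.Agent.helper34.ZE.BA2
import Pool.Agent.helper34.ZE.EXP

/-!
# The large values theorem with the exponent `12 (1 - σ) / (9 σ - 1)`
-/

set_option autoImplicit false

open Complex MeasureTheory

namespace Pool.Agent.ZE

open Pool.Agent.helper84.DM Pool.Agent.helper78.ED Pool.Agent.DH Pool.Agent.ZD Pool.Agent.NF

/-- The large values theorem for `37/50 ≤ σ ≤ 3/4`, `N ≤ T ^ (79/200)`. -/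
def LVB_stmt : Prop := ∀ ε : ℝ, 0 < ε → ∃ δ₀ : ℝ, 0 < δ₀ ∧ ∀ δ : ℝ, 0 < δ → δ ≤ δ₀ →
  ∃ κ : ℝ, 0 < κ ∧ κ ≤ 1 ∧ ∀ C₁ : ℝ, 0 < C₁ → ∃ C T₀ : ℝ, 0 < C ∧ ∀ T : ℝ, T₀ ≤ T → ∀ σ : ℝ,
  37 / 50 ≤ σ → σ ≤ 3 / 4 → ∀ W : Finset ℝ, Sep δ T W → ∀ (N : ℕ) (a : ℕ → ℂ),
  T ^ (2 / (9 * σ - 1)) ≤ (N : ℝ) → (N : ℝ) ≤ T ^ (79 / 200 : ℝ) →
  (∀ n ∈ Finset.Ioc N (2 * N), ‖a n‖ ≤ C₁ * T ^ κ) →
  (∀ t ∈ W, (N : ℝ) ^ σ / (4 * C₁ * Real.log T) ≤ ‖DP N a t‖) →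
  (W.card : ℝ) ≤ C * T ^ (12 * (1 - σ) / (9 * σ - 1) + ε)

theorem LVB (h1 : BA2_stmt) (h2 : BQF_stmt) (h5 : BS0_stmt) : LVB_stmt := by
  intro ε hε
  obtain ⟨e, he0, he1, heε⟩ : ∃ e : ℝ, 0 < e ∧ e ≤ 1 / 100 ∧ e ≤ ε :=
    ⟨min ε (1 / 100), lt_min hε (by norm_num), min_le_right _ _, min_le_left _ _⟩
  obtain ⟨a, ha⟩ : ∃ a : ℝ, a = e / 10000 := ⟨_, rfl⟩
  have ha0 : 0 < a := by rw [ha]; positivity
  have hea : e = 10000 * a := by rw [ha]; ring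
  refine ⟨a, ha0, fun δ hδ hδe => ⟨a, ha0, by linarith, fun C₁ hC₁ => ?_⟩⟩
  obtain ⟨CA, TA, hCA, hA⟩ := h1 a δ ha0 hδ (by linarith)
  obtain ⟨CQ, TQ, hCQ, hQ⟩ := h2 a δ ha0 hδ (by linarith)
  obtain ⟨TE, hE⟩ := BEJ e he0
  obtain ⟨TS, hS⟩ := h5 e he0 he1
  obtain ⟨Cd, hCd, hd⟩ := divisor_bound (a / 2) (by positivity)
  obtain ⟨K, hK⟩ : ∃ K : ℝ, K = (1 + C₁) ^ 2 * (16 * Cd ^ 2) := ⟨_, rfl⟩
  have hK0 : 0 < K := by rw [hK]; positivity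
  have hev : ∀ᶠ T : ℝ in Filter.atTop, TA ≤ T ∧ TQ ≤ T ∧ TE ≤ T ∧ TS ≤ T ∧ 1024 ≤ T ∧
      CQ * (1 + C₁) ^ 8 ≤ T ^ a ∧ CA * K ^ 6 ≤ T ^ a ∧ CA * K ^ 2 ≤ T ^ a ∧
      16 * C₁ ^ 2 / (e / 100 / 4) ^ 2 ≤ T ^ a := by
    have ht := tendsto_rpow_atTop ha0
    filter_upwards [Filter.eventually_ge_atTop TA, Filter.eventually_ge_atTop TQ,
      Filter.eventually_ge_atTop TE, Filter.eventually_ge_atTop TS,
      Filter.eventually_ge_atTop (1024 : ℝ), ht.eventually_ge_atTop (CQ * (1 + C₁) ^ 8),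
      ht.eventually_ge_atTop (CA * K ^ 6), ht.eventually_ge_atTop (CA * K ^ 2),
      ht.eventually_ge_atTop (16 * C₁ ^ 2 / (e / 100 / 4) ^ 2)] with T g1 g2 g3 g4 g5 g6 g7 g8 g9
    exact ⟨g1, g2, g3, g4, g5, g6, g7, g8, g9⟩
  obtain ⟨T₀, hT₀⟩ := Filter.eventually_atTop.1 hev
  refine ⟨1, T₀, one_pos, fun T hT σ hσ1 hσ2 W hW N₀ c hN1 hN2 hc hV => ?_⟩
  obtain ⟨hTA, hTQ, hTE, hTS, hT1, hU1, hU2, hU3, hU4⟩ := hT₀ T hT
  rw [one_mul]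
  have hT0 : 0 < T := by linarith
  have hT1' : 1 < T := by linarith
  have hlog : 0 < Real.log T := Real.log_pos hT1'
  by_contra hcon
  rw [not_le] at hcon
  obtain ⟨w, hw⟩ : ∃ w : ℝ, w = 12 * (1 - σ) / (9 * σ - 1) := ⟨_, rfl⟩
  rw [← hw] at hcon
  have hs0 : 0 < 9 * σ - 1 := by linarith
  have hw0 : 0 ≤ w := by rw [hw]; exact div_nonneg (by linarith) hs0.le
  have hw1 : w ≤ 1 := by rw [hw, div_le_one hs0]; linarith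
  obtain ⟨U, hU⟩ : ∃ U : ℝ, U = T ^ a := ⟨_, rfl⟩
  rw [← hU] at hU1 hU2 hU3 hU4
  have hU0 : 1 ≤ U := by rw [hU]; exact Real.one_le_rpow hT1'.le ha0.le
  have hUe : T ^ (e / 100) = U ^ 100 := by
    rw [hU, LVN_U hT0]
    congr 1
    rw [hea]
    push_cast
    ring
  -- the subset
  have hx1 : 1 ≤ T ^ (w + e) := Real.one_le_rpow hT1'.le (by linarith)
  have hle : T ^ (w + e) ≤ T ^ (w + ε) :=
    Real.rpow_le_rpow_of_exponent_le hT1'.le (by linarith)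
  have hfl : ((⌊T ^ (w + e)⌋₊ : ℕ) : ℝ) ≤ T ^ (w + e) := Nat.floor_le (by linarith)
  have hcard : ⌊T ^ (w + e)⌋₊ ≤ W.card := by
    have h0 : ((⌊T ^ (w + e)⌋₊ : ℕ) : ℝ) ≤ (W.card : ℝ) := by linarith
    exact_mod_cast h0
  obtain ⟨W', hWW, hW'⟩ := Finset.exists_subset_card_eq hcard
  have hSep : Sep δ T W' := ⟨fun t ht => hW.1 t (hWW ht),
    fun t ht t' ht' => hW.2 t (hWW ht) t' (hWW ht')⟩
  obtain ⟨R, hR⟩ : ∃ R : ℝ, R = (W'.card : ℝ) := ⟨_, rfl⟩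
  have hR1 : T ^ (w + e) / 2 ≤ R := by
    rw [hR, hW']
    have h0 : (1 : ℝ) ≤ ((⌊T ^ (w + e)⌋₊ : ℕ) : ℝ) := by
      exact_mod_cast Nat.le_floor (by exact_mod_cast hx1)
    have h6 := Nat.lt_floor_add_one (T ^ (w + e))
    linarith
  have hR2 : R ≤ T ^ (w + e) := by rw [hR, hW']; exact hfl
  have hR0 : 0 ≤ R := by rw [hR]; exact Nat.cast_nonneg _
  -- the exponent of N
  have hN0 : (0 : ℝ) < (N₀ : ℝ) := lt_of_lt_of_le (by positivity) hN1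
  have hN0' : 1 ≤ N₀ := by exact_mod_cast hN0
  have hNlow : T ^ (4 / (9 * σ - 1)) ≤ (N₀ : ℝ) ^ 2 := by
    have h0 : T ^ (4 / (9 * σ - 1)) = (T ^ (2 / (9 * σ - 1))) ^ 2 := by
      rw [LVN_U hT0]
      congr 1
      field_simp
      norm_num
    rw [h0]
    exact pow_le_pow_left₀ (by positivity) hN1 2
  have hNhigh' : (N₀ : ℝ) ^ 2 ≤ T ^ (79 / 100 : ℝ) := by
    have h0 : T ^ (79 / 100 : ℝ) = (T ^ (79 / 200 : ℝ)) ^ 2 := by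
      rw [LVN_U hT0]
      norm_num
    rw [h0]
    exact pow_le_pow_left₀ hN0.le hN2 2
  have hNhigh : (N₀ : ℝ) ^ 2 ≤ T := by
    refine hNhigh'.trans ?_
    calc T ^ (79 / 100 : ℝ) ≤ T ^ (1 : ℝ) := Real.rpow_le_rpow_of_exponent_le hT1'.le (by norm_num)
      _ = T := Real.rpow_one T
  obtain ⟨b, hb⟩ : ∃ b : ℝ, T ^ b = (N₀ : ℝ) ^ 2 :=
    ⟨Real.logb T ((N₀ : ℝ) ^ 2), Real.rpow_logb hT0 hT1'.ne' (by positivity)⟩
  have hb1 : 4 / (9 * σ - 1) ≤ b := by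
    rw [← hb] at hNlow
    exact (Real.rpow_le_rpow_left_iff hT1').1 hNlow
  have hb28 : 69 / 100 ≤ 4 / (9 * σ - 1) := by
    rw [div_le_div_iff₀ (by norm_num) hs0]
    linarith
  have hb1' : 4 ≤ b * (9 * σ - 1) := (div_le_iff₀ hs0).1 hb1
  have hb2' : b ≤ 79 / 100 := by
    rw [← hb] at hNhigh'
    exact (Real.rpow_le_rpow_left_iff hT1').1 hNhigh'
  have hb2 : b ≤ 1 := by linarith
  have hwD : w * (9 * σ - 1) = 12 * (1 - σ) := by rw [hw, div_mul_cancel₀ _ hs0.ne']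
  obtain ⟨l, hl⟩ := EXP σ b w hσ1 hσ2 hwD hb1' hb2'
  have hl' := hl
  obtain ⟨hl0, hl1, hl1a, -, -, -, -, -, -, hl8⟩ := hl'
  obtain ⟨L, hL⟩ : ∃ L : ℕ, L = ⌈T ^ l⌉₊ := ⟨_, rfl⟩
  have hTl : 1 ≤ T ^ l := Real.one_le_rpow hT1'.le hl0
  have hL1 : T ^ l ≤ (L : ℝ) := by rw [hL]; exact Nat.le_ceil _
  have hL2 : (L : ℝ) ≤ 2 * T ^ l := by
    rw [hL]
    have h0 := Nat.ceil_lt_add_one (show 0 ≤ T ^ l by linarith)
    linarith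
  have hL0 : 1 ≤ L := by
    have h0 : (1 : ℝ) ≤ (L : ℝ) := hTl.trans hL1
    exact_mod_cast h0
  have hNL : ((N₀ ^ 2 : ℕ) : ℝ) * L ≤ T := by
    have h0 : (2 : ℝ) ≤ T ^ (1 / 10 : ℝ) := by
      calc (2 : ℝ) = (1024 : ℝ) ^ (1 / 10 : ℝ) := by
            rw [show (1024 : ℝ) = 2 ^ (10 : ℝ) by norm_num, ← Real.rpow_mul (by norm_num)]
            norm_num
        _ ≤ T ^ (1 / 10 : ℝ) := Real.rpow_le_rpow (by norm_num) hT1 (by norm_num)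
    push_cast
    calc (N₀ : ℝ) ^ 2 * L ≤ T ^ b * (2 * T ^ l) := by
          rw [← hb]
          exact mul_le_mul_of_nonneg_left hL2 (by positivity)
      _ = 2 * T ^ (b + l) := by rw [Real.rpow_add hT0]; ring
      _ ≤ T ^ (1 / 10 : ℝ) * T ^ (9 / 10 : ℝ) :=
          mul_le_mul h0 (Real.rpow_le_rpow_of_exponent_le hT1'.le hl1) (by positivity)
            (by positivity)
      _ = T := by
          rw [← Real.rpow_add hT0]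
          norm_num
  have hδN : T ^ (2 / 3 * (1 + δ)) ≤ (N₀ : ℝ) ^ 2 :=
    (Real.rpow_le_rpow_of_exponent_le hT1'.le (by linarith)).trans hNlow
  -- S
  obtain ⟨S, hSd⟩ : ∃ S : ℝ, S = R ^ 2 + R ^ (3 / 2 : ℝ) * T ^ ((1 + e / 100) / 3) := ⟨_, rfl⟩
  have hS0 : S0 δ T W' ≤ S := by
    unfold S0
    rw [hSd, ← hR]
    have h0 : T ^ ((1 + δ) / 3) ≤ T ^ ((1 + e / 100) / 3) :=
      Real.rpow_le_rpow_of_exponent_le hT1'.le (by linarith)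
    gcongr
  have hS0' : 0 ≤ S0 δ T W' := by
    unfold S0
    rw [← hR]
    positivity
  have hSN : S ≤ R * T ^ b := by
    rw [hSd]
    exact hS T hTS b w R hw0 hl8 hR0 hR2
  -- the coefficients
  obtain ⟨A, hAd⟩ : ∃ A : ℝ, A = max 1 (C₁ * T ^ a) := ⟨_, rfl⟩
  have hA1 : 1 ≤ A := by rw [hAd]; exact le_max_left _ _
  have hAU : A ≤ (1 + C₁) * U := by
    rw [hAd, ← hU]
    refine max_le ?_ ?_
    · nlinarith
    · nlinarith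
  have hcA : ∀ n ∈ Finset.Ioc N₀ (2 * N₀), ‖c n‖ ≤ A := fun n hn =>
    (hc n hn).trans (by rw [hAd]; exact le_max_right _ _)
  obtain ⟨V₀, hV₀⟩ : ∃ V₀ : ℝ, V₀ = (N₀ : ℝ) ^ σ / (4 * C₁ * Real.log T) := ⟨_, rfl⟩
  have hV₀0 : 0 < V₀ := by rw [hV₀]; positivity
  have hVW : ∀ t ∈ W', V₀ ≤ ‖DP N₀ c t‖ := fun t ht => by
    rw [hV₀]
    exact hV t (hWW ht)
  have hVl : T ^ (b * σ - e / 100) ≤ V₀ ^ 2 := by
    rw [hV₀]
    refine LVN_V hT1' hC₁ (by positivity) (hU4.trans ?_) hN0 hb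
    rw [hU]
    exact Real.rpow_le_rpow_of_exponent_le hT1'.le (by rw [hea]; linarith)
  have hU100 : ∀ (k : ℕ) (C : ℝ), k ≤ 99 → C ≤ U → C * U ^ k ≤ T ^ (e / 100) := by
    intro k C hk hC
    rw [hUe]
    calc C * U ^ k ≤ U * U ^ k := mul_le_mul_of_nonneg_right hC (by positivity)
      _ = U ^ (k + 1) := by ring
      _ ≤ U ^ 100 := pow_le_pow_right₀ hU0 (by omega)
  have hTk : ∀ (k : ℕ) (x : ℝ), x ≤ k * a → T ^ x ≤ U ^ k := by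
    intro k x hx
    rw [hU, LVN_U hT0]
    exact Real.rpow_le_rpow_of_exponent_le hT1'.le hx
  have hq := hQ T hTQ W' hSep N₀ c A V₀ hδN hNhigh hA1 hV₀0 hcA hVW (by
    rw [← hR, ← hb]
    exact hS0.trans hSN)
  rw [← hR] at hq
  have hq' : q3 W' ≤ T ^ (e / 100) * (R ^ (3 / 2 : ℝ) + KQ R ((N₀ : ℝ) ^ 2) (V₀ ^ 2) S) := by
    refine hq.trans ?_
    have hKQ := LVN_KQ hR0 (sq_nonneg (N₀ : ℝ)) (sq_nonneg V₀) hS0' hS0
    have hKQ0 : 0 ≤ KQ R ((N₀ : ℝ) ^ 2) (V₀ ^ 2) (S0 δ T W') := by unfold KQ; positivity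
    have hc1 : CQ * A ^ 8 * T ^ (a + 4 * δ) ≤ T ^ (e / 100) := by
      calc CQ * A ^ 8 * T ^ (a + 4 * δ) ≤ CQ * ((1 + C₁) * U) ^ 8 * U ^ 5 := by
            have g1 := hTk 5 (a + 4 * δ) (by push_cast; linarith)
            gcongr
        _ = CQ * (1 + C₁) ^ 8 * U ^ 13 := by ring
        _ ≤ T ^ (e / 100) := hU100 13 _ (by norm_num) hU1
    refine mul_le_mul hc1 (by linarith) (by positivity) (by positivity)
  obtain ⟨hF1, hF2⟩ := hE T hTE σ b w l R ((N₀ : ℝ) ^ 2) L (V₀ ^ 2) S (q3 W') hl hb.symm hL1 hL2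
    hVl hR1 hR2 hSd hq'
  -- the square
  obtain ⟨b', hb'1, hb'2⟩ := LVN_sq hCd (show 0 < a / 2 by positivity) (by linarith) hd N₀ hN0'
    c A T (by linarith) hT1'.le hNhigh hcA
  have h2a : 2 * (a / 2) = a := by ring
  rw [h2a, ← hU] at hb'1
  have hA'0 : 0 ≤ A ^ 2 * (16 * Cd ^ 2 * U) := by positivity
  have hA'U : A ^ 2 * (16 * Cd ^ 2 * U) ≤ K * U ^ 3 := by
    calc A ^ 2 * (16 * Cd ^ 2 * U) ≤ ((1 + C₁) * U) ^ 2 * (16 * Cd ^ 2 * U) := by gcongr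
      _ = K * U ^ 3 := by rw [hK]; ring
  have hb'3 : ∀ t ∈ W', V₀ ^ 2 ≤ ‖DG (Finset.Ioc (N₀ ^ 2) (4 * N₀ ^ 2)) b' t‖ := by
    intro t ht
    rw [hb'2 t]
    exact pow_le_pow_left₀ hV₀0.le (hVW t ht) 2
  have hNLL : T ^ (1 + δ) ≤ ((N₀ ^ 2 : ℕ) : ℝ) * L * L := by
    push_cast
    calc T ^ (1 + δ) ≤ T ^ (b + (l + l)) :=
          Real.rpow_le_rpow_of_exponent_le hT1'.le (by linarith)
      _ = T ^ b * T ^ l * T ^ l := by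
          rw [Real.rpow_add hT0, Real.rpow_add hT0, mul_assoc]
      _ ≤ (N₀ : ℝ) ^ 2 * L * L := by
          rw [hb]
          gcongr
  have hN12 : T ^ (1 / 2 : ℝ) ≤ (N₀ : ℝ) ^ 2 :=
    (Real.rpow_le_rpow_of_exponent_le hT1'.le (by linarith)).trans hNlow
  have hBA := hA T hTA W' hSep (N₀ ^ 2) L hL0 (by push_cast; exact hN12) hNL hNLL b'
    (A ^ 2 * (16 * Cd ^ 2 * U)) (V₀ ^ 2) hA'0 (by positivity) hb'1 hb'3
  rw [← hR] at hBA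
  push_cast at hBA
  rcases hBA with hB | hB
  · apply hF1
    refine hB.trans (mul_le_mul_of_nonneg_right ?_ (by positivity))
    calc CA * (A ^ 2 * (16 * Cd ^ 2 * U)) ^ 2 * T ^ a ≤ CA * (K * U ^ 3) ^ 2 * U ^ 1 := by
          have g1 := hTk 1 a (by push_cast; linarith)
          gcongr
      _ = CA * K ^ 2 * U ^ 7 := by ring
      _ ≤ T ^ (e / 100) := hU100 7 _ (by norm_num) hU3
  · apply hF2
    refine hB.trans (mul_le_mul ?_ ?_ ?_ (by positivity))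
    · calc CA * (A ^ 2 * (16 * Cd ^ 2 * U)) ^ 6 * T ^ (a + 2 * δ)
            ≤ CA * (K * U ^ 3) ^ 6 * U ^ 3 := by
            have g1 := hTk 3 (a + 2 * δ) (by push_cast; linarith)
            gcongr
        _ = CA * K ^ 6 * U ^ 21 := by ring
        _ ≤ T ^ (e / 100) := hU100 21 _ (by norm_num) hU2
    · exact le_refl _
    · have g2 := LVN_q3 W'
      positivity

end Pool.Agent.ZE
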